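import Pool.Agent.H802R3.Vas.Poly

/-!
# Lists of coloured faces
-/

set_option autoImplicit false

namespace Pool.Agent.H802R3.Vas

/-- the lists of `n` classes in which the class `c` occurs `a c` times -/
def arrL : ℕ → (Fin 4 → ℕ) → List (List (Fin 4 × Bool))
  | 0, a => if a 0 = 0 ∧ a 1 = 0 ∧ a 2 = 0 ∧ a 3 = 0 then [[]] else []
  | n + 1, a => [(0 : Fin 4), 1, 2, 3].flatMap fun c => if a c = 0 then [] else
      (arrL n (Function.update a c (a c - 1))).map (fun l => (c, false) :: l) ++
      (arrL n (Function.update a c (a c - 1))).map (fun l => (c, true) :: l)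

lemma coefL_eq (n : ℕ) : ∀ (a : Fin 4 → ℕ) (g : List (Fin 4 × Bool) → ℤ),
    coefL n a g = ((arrL n a).map g).sum := by
  induction n with
  | zero =>
    intro a g
    have h : a = 0 ↔ (a 0 = 0 ∧ a 1 = 0 ∧ a 2 = 0 ∧ a 3 = 0) := by
      constructor
      · rintro rfl; simp
      · rintro ⟨h0, h1, h2, h3⟩
        funext c
        fin_cases c
        · exact h0
        · exact h1
        · exact h2
        · exact h3
    simp only [coefL, arrL, h]
    split_ifs <;> simp
  | succ n ih =>
    intro a g
    have key : ∀ c : Fin 4, (if a c = 0 then 0 else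
        coefL n (Function.update a c (a c - 1)) (fun l => g ((c, false) :: l)) +
        coefL n (Function.update a c (a c - 1)) (fun l => g ((c, true) :: l))) =
        ((if a c = 0 then [] else
      (arrL n (Function.update a c (a c - 1))).map (fun l => (c, false) :: l) ++
      (arrL n (Function.update a c (a c - 1))).map (fun l => (c, true) :: l)).map g).sum := by
      intro c
      split_ifs
      · simp
      · rw [ih, ih, List.map_append, List.sum_append, List.map_map, List.map_map]
        rfl
    simp only [coefL, arrL, Fin.sum_univ_four, key, List.flatMap_cons, List.flatMap_nil,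
      List.map_append, List.sum_append, List.append_nil]
    ring

lemma arrL_length (n : ℕ) : ∀ (a : Fin 4 → ℕ), ∀ l ∈ arrL n a, l.length = n := by
  induction n with
  | zero =>
    intro a l hl
    simp only [arrL] at hl
    split_ifs at hl
    · simp only [List.mem_singleton] at hl; subst hl; rfl
    · simp at hl
  | succ n ih =>
    intro a l hl
    simp only [arrL, List.mem_flatMap] at hl
    obtain ⟨c, _, hl⟩ := hl
    split_ifs at hl
    · simp at hl
    · simp only [List.mem_append, List.mem_map] at hl
      rcases hl with ⟨l', hl', rfl⟩ | ⟨l', hl', rfl⟩ <;>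
        rw [List.length_cons, ih _ l' hl']

lemma arrL_count (n : ℕ) : ∀ (a : Fin 4 → ℕ), n ≠ a 0 + a 1 + a 2 + a 3 → arrL n a = [] := by
  induction n with
  | zero =>
    intro a ha
    simp only [arrL]
    rw [if_neg]
    omega
  | succ n ih =>
    intro a ha
    simp only [arrL, List.flatMap_eq_nil_iff]
    intro c _
    split_ifs with h
    · rfl
    · have : arrL n (Function.update a c (a c - 1)) = [] := by
        apply ih
        fin_cases c <;> simp [Function.update] at h ⊢ <;> omega
      rw [this]
      rfl

/-- the digit of a signed class -/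
def dg (p : Fin 4 × Bool) : ℕ := if p.2 then 3 - p.1 else 5 + p.1

/-- first half of the encoding -/
def encA : List (Fin 4 × Bool) → ℕ
  | [] => 0
  | p :: l => dg p + 16 * encA l

/-- second half of the encoding -/
def encB : List (Fin 4 × Bool) → ℕ
  | [] => 0
  | p :: l => (8 - dg p) + 16 * encB l

/-- the encoding of a list of signed classes as a number -/
def enc (l : List (Fin 4 × Bool)) : ℕ := encA l + 1048576 * encB l

lemma dg_le (p : Fin 4 × Bool) : dg p ≤ 8 := by
  have := p.1.2
  unfold dg
  split_ifs <;> omega

lemma dg_colv (p : Fin 4 × Bool) : (dg p : ℤ) = 4 + colv p := by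
  obtain ⟨c, b⟩ := p
  revert c b
  decide

lemma encA_lt (l : List (Fin 4 × Bool)) : encA l < 16 ^ l.length := by
  induction l with
  | nil => simp [encA]
  | cons p l ih =>
    have := dg_le p
    simp only [encA, List.length_cons, pow_succ]
    omega

lemma encA_digit (l : List (Fin 4 × Bool)) : ∀ i < l.length,
    encA l / 16 ^ i % 16 = dg (l.getD i (0, false)) := by
  induction l with
  | nil => intro i hi; simp at hi
  | cons p l ih =>
    intro i hi
    have hp := dg_le p
    cases i with
    | zero => simp only [encA, pow_zero, Nat.div_one, List.getD_cons_zero]; omega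
    | succ i =>
      have hi' : i < l.length := by simpa using hi
      rw [List.getD_cons_succ, ← ih i hi', pow_succ', ← Nat.div_div_eq_div_mul]
      congr 2
      simp only [encA]
      omega

lemma encB_digit (l : List (Fin 4 × Bool)) : ∀ i < l.length,
    encB l / 16 ^ i % 16 = 8 - dg (l.getD i (0, false)) := by
  induction l with
  | nil => intro i hi; simp at hi
  | cons p l ih =>
    intro i hi
    have hp := dg_le p
    cases i with
    | zero => simp only [encB, pow_zero, Nat.div_one, List.getD_cons_zero]; omega
    | succ i =>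
      have hi' : i < l.length := by simpa using hi
      rw [List.getD_cons_succ, ← ih i hi', pow_succ', ← Nat.div_div_eq_div_mul]
      congr 2
      simp only [encB]
      omega

lemma enc_digit0 (l : List (Fin 4 × Bool)) (i : ℕ) (hi : i < l.length) (hl : l.length ≤ 5) :
    enc l / 16 ^ i % 16 = dg (l.getD i (0, false)) := by
  rw [← encA_digit l i hi]
  unfold enc
  have h1 : (1048576 : ℕ) = 16 ^ i * (16 * 16 ^ (4 - i)) := by
    rw [← pow_succ', ← pow_add]
    have : i + (4 - i + 1) = 5 := by omega
    rw [this]; norm_num
  rw [h1, mul_assoc, Nat.add_mul_div_left _ _ (by positivity), mul_assoc, Nat.add_mul_mod_self_left]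

lemma enc_digit1 (l : List (Fin 4 × Bool)) (i : ℕ) (hi : i < l.length) (hl : l.length ≤ 5) :
    enc l / 16 ^ (i + 5) % 16 = 8 - dg (l.getD i (0, false)) := by
  rw [← encB_digit l i hi]
  have h1 : enc l / 16 ^ 5 = encB l := by
    unfold enc
    have h2 : (1048576 : ℕ) = 16 ^ 5 := by norm_num
    have h3 : encA l < 16 ^ 5 := lt_of_lt_of_le (encA_lt l) (Nat.pow_le_pow_right (by norm_num) hl)
    rw [h2, Nat.add_mul_div_left _ _ (by positivity), Nat.div_eq_of_lt h3, zero_add]
  rw [add_comm i 5, pow_add, ← Nat.div_div_eq_div_mul, h1]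

/-- the place of the value at the corner `u` in the encoding -/
def plc (r : List ℕ) (u : ℕ) : ℕ := 16 ^ (idx r u + 5 * (r.getD u 0 % 2))

lemma enc_plc (r : List ℕ) (l : List (Fin 4 × Bool)) (u : ℕ) (hi : idx r u < l.length)
    (hl : l.length ≤ 5) : ((enc l / plc r u % 16 : ℕ) : ℤ) = 4 + xv r l u := by
  unfold plc xv
  have hd := dg_le (l.getD (idx r u) (0, false))
  have hc := dg_colv (l.getD (idx r u) (0, false))
  rcases Nat.mod_two_eq_zero_or_one (r.getD u 0) with h | h
  · rw [h, mul_zero, add_zero, enc_digit0 l _ hi hl, if_pos rfl, one_mul, hc]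
  · rw [h, mul_one, enc_digit1 l _ hi hl, if_neg (by norm_num)]
    push_cast [Nat.cast_sub hd]
    rw [hc]
    ring

end Pool.Agent.H802R3.Vas
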