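import Pool.Agent.H802R3.Vas.Arr

/-!
# The computation with natural numbers
-/

set_option autoImplicit false

namespace Pool.Agent.H802R3.Vas

open Finset

/-- the weight of a chord -/
noncomputable def chord (LL : ℕ) (c : ℕ × ℕ × ℕ) : ℕ :=
  Nat.mod (Nat.shiftRight c.2.2 (Nat.mul 64 (Nat.sub (Nat.add (Nat.mod (Nat.div LL c.1) 16) 16)
    (Nat.mod (Nat.div LL c.2.1) 16)))) 18446744073709551616

/-- the product over the chords -/
noncomputable def prodC (LL : ℕ) (ch : List (ℕ × ℕ × ℕ)) : ℕ :=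
  List.rec 1 (fun c _ ih => Nat.mul (chord LL c) ih) ch

/-- the sum over a list of encoded colourings -/
noncomputable def sumC (ch : List (ℕ × ℕ × ℕ)) (Ls : List ℕ) : ℕ :=
  List.rec 0 (fun LL _ ih => Nat.add (prodC LL ch) ih) Ls

/-- the modulus -/
def pp : ℕ := 1000003

/-- the sum over the states, modulo `pp` -/
noncomputable def stC (a : ℕ × List ℕ) (sts : List (ℕ × ℕ × List (ℕ × ℕ × ℕ))) : ℕ :=
  List.rec 0 (fun p _ ih => (if p.2.1 = a.1 then
    (if p.1 % 2 = 0 then sumC p.2.2 a.2 else pp - sumC p.2.2 a.2 % pp) + ih else ih) % pp) sts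

lemma prodC_eq (LL : ℕ) (ch : List (ℕ × ℕ × ℕ)) : prodC LL ch = (ch.map (chord LL)).prod := by
  induction ch with
  | nil => rfl
  | cons c ch ih =>
    rw [List.map_cons, List.prod_cons, ← ih]
    rfl

lemma sumC_eq (ch : List (ℕ × ℕ × ℕ)) (Ls : List ℕ) :
    sumC ch Ls = (Ls.map fun LL => prodC LL ch).sum := by
  induction Ls with
  | nil => rfl
  | cons c Ls ih =>
    rw [List.map_cons, List.sum_cons, ← ih]
    rfl

lemma stC_eq (a : ℕ × List ℕ) (sts : List (ℕ × ℕ × List (ℕ × ℕ × ℕ))) :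
    ((stC a sts : ℕ) : ZMod pp) =
      (sts.map fun p => if p.2.1 = a.1 then (-1) ^ p.1 * ((sumC p.2.2 a.2 : ℕ) : ZMod pp)
        else 0).sum := by
  induction sts with
  | nil => rfl
  | cons p sts ih =>
    rw [List.map_cons, List.sum_cons, ← ih]
    have h1 : stC a (p :: sts) = (if p.2.1 = a.1 then
      (if p.1 % 2 = 0 then sumC p.2.2 a.2 else pp - sumC p.2.2 a.2 % pp) + stC a sts
        else stC a sts) % pp := rfl
    rw [h1, ZMod.natCast_mod]
    split_ifs with h2 h3
    · have : Even p.1 := Nat.even_iff.2 h3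
      rw [this.neg_one_pow, one_mul, Nat.cast_add]
    · have : Odd p.1 := Nat.odd_iff.2 (by omega)
      have hle : sumC p.2.2 a.2 % pp ≤ pp := (Nat.mod_lt _ (by norm_num [pp])).le
      rw [this.neg_one_pow, Nat.cast_add, Nat.cast_sub hle, ZMod.natCast_mod, ZMod.natCast_self]
      ring
    · rw [zero_add]

/-- an entry of the table of powers -/
def tabD (n z : ℕ) : ℕ := (if z ≤ 16 then 16 - z else z - 16) ^ n

/-- the table of `n`-th powers -/
def tab (n : ℕ) : ℕ := ((List.range 17).map fun j => tabD n (j + 8) * 2 ^ (64 * (j + 8))).sum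

lemma tab_lookup : ∀ n < 21, ∀ j < 17,
    Nat.mod (Nat.shiftRight (tab n) (Nat.mul 64 (j + 8))) 18446744073709551616 =
      tabD n (j + 8) := by
  decide +kernel

lemma xv_bound (r : List ℕ) (l : List (Fin 4 × Bool)) (u : ℕ) : -4 ≤ xv r l u ∧ xv r l u ≤ 4 := by
  have h : ∀ p : Fin 4 × Bool, -4 ≤ colv p ∧ colv p ≤ 4 := by decide
  have := h (l.getD (idx r u) (0, false))
  unfold xv
  split_ifs <;> constructor <;> linarith [this.1, this.2]

lemma chord_eq (r : List ℕ) (l : List (Fin 4 × Bool)) (a b n : ℕ) (ha : idx r a < l.length)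
    (hb : idx r b < l.length) (hl : l.length ≤ 5) (hn : n < 21) (he : Even n) :
    ((chord (enc l) (plc r a, plc r b, tab n) : ℕ) : ℤ) = (xv r l b - xv r l a) ^ n := by
  have h1 := enc_plc r l a ha hl
  have h2 := enc_plc r l b hb hl
  have b1 := xv_bound r l a
  have b2 := xv_bound r l b
  set A := enc l / plc r a % 16 with hA
  set C := enc l / plc r b % 16 with hC
  have hA8 : A ≤ 8 := by omega
  have hC8 : C ≤ 8 := by omega
  have h3 : chord (enc l) (plc r a, plc r b, tab n) =
      Nat.mod (Nat.shiftRight (tab n) (Nat.mul 64 ((A + 8 - C) + 8))) 18446744073709551616 := by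
    have : A + 16 - C = (A + 8 - C) + 8 := by omega
    rw [← this]
    rfl
  rw [h3, tab_lookup n hn (A + 8 - C) (by omega)]
  unfold tabD
  have h4 : xv r l b - xv r l a = (C : ℤ) - A := by rw [h1, h2]; ring
  rw [h4]
  split_ifs with h5
  · have h6 : ((16 - (A + 8 - C + 8) : ℕ) : ℤ) = (C : ℤ) - A := by omega
    rw [Nat.cast_pow, h6]
  · have h6 : ((A + 8 - C + 8 - 16 : ℕ) : ℤ) = -((C : ℤ) - A) := by omega
    rw [Nat.cast_pow, h6, he.neg_pow]

/-- the data of a state -/
def sdat (ch : List (ℕ × ℕ)) (p : ℕ × List ℕ) : ℕ × ℕ × List (ℕ × ℕ × ℕ) :=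
  (p.1, (roots p.2).length, ch.map fun q => (plc p.2 q.1, plc p.2 (nxt q.1), tab q.2))

/-- admissible exponents -/
def OkCh (ch : List (ℕ × ℕ)) : Prop :=
  (∀ q ∈ ch, q.1 < 18 ∧ q.2 < 21 ∧ q.2 % 2 = 0) ∧ (ch.map Prod.snd).sum = 20

lemma gz_eq (r : List ℕ) (hr : Good r) (ch : List (ℕ × ℕ))
    (hch : ∀ q ∈ ch, q.1 < 18 ∧ q.2 < 21 ∧ q.2 % 2 = 0) (l : List (Fin 4 × Bool))
    (hl : l.length = (roots r).length) (hl5 : l.length ≤ 5) :
    gz r ch l = 2 ^ (ch.map Prod.snd).sum *
      ((prodC (enc l) (ch.map fun q => (plc r q.1, plc r (nxt q.1), tab q.2)) : ℕ) : ℤ) := by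
  unfold gz
  rw [prodC_eq]
  induction ch with
  | nil => simp
  | cons q ch ih =>
    obtain ⟨h1, h2, h3⟩ := hch q (by simp)
    simp only [List.map_cons, List.prod_cons, List.sum_cons] at ih ⊢
    rw [ih (fun q' hq' => hch q' (by simp [hq'])), pow_add, mul_pow, Nat.cast_mul,
      chord_eq r l q.1 (nxt q.1) q.2 (by rw [hl]; exact idx_lt hr h1)
        (by rw [hl]; exact idx_lt hr (nxt_lt _ h1)) hl5 h2 (Nat.even_iff.2 h3)]
    ring

/-- the polynomial of a cubic graph with legs -/
noncomputable def pcore (rs : List (ℕ × List ℕ)) (ch : List (ℕ × ℕ)) : MvPolynomial (Fin 4) ℤ :=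
  (rs.map fun p => MvPolynomial.C ((-1) ^ p.1) * polyL (roots p.2).length (gz p.2 ch)).sum

lemma coeff_pcore (rs : List (ℕ × List ℕ)) (hrs : ∀ p ∈ rs, Good p.2) (ch : List (ℕ × ℕ))
    (hch : OkCh ch) (a : Fin 4 → ℕ) (F : ℕ) (hF : F = a 0 + a 1 + a 2 + a 3) (hF5 : F ≤ 5)
    (hF4 : 4 ≤ F)
    (Ls : List ℕ) (hLs : Ls = (arrL F a).map enc) (rs' : List (ℕ × List ℕ))
    (hrs' : rs.filter (fun p => 4 ≤ (roots p.2).length) = rs') :
    ((MvPolynomial.coeff (Finsupp.equivFunOnFinite.symm a) (pcore rs ch) : ℤ) : ZMod pp) =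
      2 ^ 20 * ((stC (F, Ls) (rs'.map (sdat ch)) : ℕ) : ZMod pp) := by
  have key : ∀ rs : List (ℕ × List ℕ), (∀ p ∈ rs, Good p.2) →
      ((MvPolynomial.coeff (Finsupp.equivFunOnFinite.symm a) (pcore rs ch) : ℤ) : ZMod pp) =
      2 ^ 20 * ((stC (F, Ls) ((rs.filter (fun p => 4 ≤ (roots p.2).length)).map (sdat ch)) : ℕ) :
        ZMod pp) := by
    intro rs hrs
    rw [stC_eq]
    induction rs with
    | nil => simp [pcore]
    | cons p rs ih =>
      have ih' := ih (fun q hq => hrs q (by simp [hq]))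
      have hp := hrs p (by simp)
      have h1 : pcore (p :: rs) ch = MvPolynomial.C ((-1) ^ p.1) *
          polyL (roots p.2).length (gz p.2 ch) + pcore rs ch := by
        simp [pcore]
      rw [h1, MvPolynomial.coeff_add, MvPolynomial.coeff_C_mul, coeff_polyL, coefL_eq,
        Int.cast_add, ih', List.filter_cons]
      by_cases hF' : (roots p.2).length = F
      · have h4 : decide (4 ≤ (roots p.2).length) = true := by simp; omega
        rw [if_pos h4, List.map_cons, List.map_cons, List.sum_cons]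
        have h5 : (sdat ch p).2.1 = F := hF'
        simp only [h5, if_true]
        have h6 : ((arrL (roots p.2).length a).map (gz p.2 ch)).sum =
            2 ^ 20 * ((sumC (sdat ch p).2.2 Ls : ℕ) : ℤ) := by
          rw [sumC_eq, hLs, List.map_map]
          have h7 : ∀ l ∈ arrL (roots p.2).length a, gz p.2 ch l = 2 ^ 20 *
              ((prodC (enc l) (sdat ch p).2.2 : ℕ) : ℤ) := by
            intro l hl
            have h8 := arrL_length _ a l hl
            have := gz_eq p.2 hp ch hch.1 l h8 (by omega)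
            rw [hch.2] at this
            exact this
          rw [List.map_congr_left h7, ← hF', List.sum_map_mul_left]
          congr 1
          rw [Nat.cast_list_sum, List.map_map]
          rfl
        rw [h6, mul_add]
        congr 1
        have h9 : (sdat ch p).1 = p.1 := rfl
        rw [h9]
        push_cast
        ring
      · have h6 : arrL (roots p.2).length a = [] := arrL_count _ a (by omega)
        rw [h6, List.map_nil, List.sum_nil, mul_zero, Int.cast_zero, zero_add]
        split_ifs with h4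
        · rw [List.map_cons, List.map_cons, List.sum_cons]
          have h5 : ¬ (sdat ch p).2.1 = F := hF'
          simp only [h5, if_false, zero_add]
        · rfl
  rw [← hrs']
  exact key rs hrs

end Pool.Agent.H802R3.Vas
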