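import Pool.Agent.H802R3.Vas.Comp

/-!
# The state sum of a cubic graph with six vertices and legs
-/

set_option autoImplicit false

namespace Pool.Agent.H802R3.Vas

open Finset

/-- the initial list of constraints -/
def r0 : List ℕ := [0, 2, 4, 6, 8, 10, 12, 14, 16, 18, 20, 22, 24, 26, 28, 30, 32, 34]

lemma r0_good : Good r0 := by
  refine ⟨rfl, ?_⟩
  decide

lemma r0_holds {I : Type} (ν : I → I) (kk : ℕ → I) : Holds ν r0 kk := by
  have h : ∀ u < 18, r0.getD u 0 = 2 * u := by decide
  intro u hu
  rw [h u hu, sg_even ν (by omega), Nat.mul_div_cancel_left _ (by norm_num)]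

/-- the pairing with a given table -/
def mateOf (t : List ℕ) (h : Half 6 0) : Half 6 0 := dec (t.getD (code h) 0)

/-- the list `E` lists the edges of the pairing `m` -/
def IsEdgeList (m : Half 6 0 → Half 6 0) (E : List (ℕ × ℕ)) : Prop :=
  (∀ p ∈ E, p.1 < 18 ∧ p.2 < 18) ∧ (E.map fun p => s(dec p.1, dec p.2)).Nodup ∧
    edgesOf m = (E.map fun p => s(dec p.1, dec p.2)).toFinset

theorem wt_core (m : Fin 4 → ℕ)
    (mt : Half 6 0 → Half 6 0) (h1 : ∀ h, mt (mt h) = h) (h2 : ∀ h, mt h ≠ h)
    (E : List (ℕ × ℕ)) (hE : IsEdgeList mt E)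
    (ch : List (ℕ × ℕ)) (hch : OkCh ch) :
    wt pneg pneg_inv (px (m := m)) (grow (⟨6, 0, mt, h1, h2⟩ : Graph) (legs ch)).1 =
      MvPolynomial.eval (fun c => (m c : ℤ)) (pcore (run E r0 0) ch) := by
  rw [wt_grow pneg pneg_inv px px_neg]
  unfold wtF
  obtain ⟨hE1, hE2, hE3⟩ := hE
  have e1 : ∀ k : Half 6 0 → Pal m, ∏ e ∈ edgesOf mt, kedge pneg pneg_inv (lab k) e =
      stSum pneg (fun u => k (dec u)) (run E r0 0) := by
    intro k
    rw [← run_spec pneg_inv pneg_ne (fun u => k (dec u)) E r0 0 r0_good hE1,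
      if_pos (r0_holds _ _), pow_zero, one_mul, hE3, List.prod_toFinset _ hE2, List.map_map]
    congr 1
    refine List.map_congr_left fun p hp => ?_
    simp only [Function.comp, kedge_mk, lab_dec k _ (hE1 p hp).1, lab_dec k _ (hE1 p hp).2]
    rfl
  have e2 : ∀ k : Half 6 0 → Pal m,
      (∏ l : Fin 0, px (k (Sum.inr l))) * (∏ e ∈ edgesOf mt, kedge pneg pneg_inv (lab k) e) *
        ((legs ch).map fun h => 2 * (px (lab k h).2 - px (lab k h).1)).prod =
      ((run E r0 0).map fun p => (-1) ^ p.1 * (if Holds pneg p.2 (fun u => k (dec u)) then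
        (ch.map fun q => (2 * (px (k (dec (nxt q.1))) - px (k (dec q.1)))) ^ q.2).prod
          else 0)).sum := by
    intro k
    rw [e1, prod_legs px ch (fun q hq => (hch.1 q hq).1) k, Finset.univ_eq_empty,
      Finset.prod_empty, one_mul]
    unfold stSum
    rw [← List.sum_map_mul_right]
    congr 1
    refine List.map_congr_left fun p _ => ?_
    split_ifs
    · rfl
    · ring
  have e3 : (∑ k : Half 6 0 → Pal m,
      (∏ l : Fin 0, px (k (Sum.inr l))) * (∏ e ∈ edgesOf mt, kedge pneg pneg_inv (lab k) e) *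
        ((legs ch).map fun h => 2 * (px (lab k h).2 - px (lab k h).1)).prod) =
      MvPolynomial.eval (fun c => (m c : ℤ)) (pcore (run E r0 0) ch) := by
    simp only [e2]
    unfold pcore
    rw [map_list_sum, List.map_map]
    have hg := run_good pneg_inv (I := Pal m) E r0 0 r0_good hE1
    generalize run E r0 0 = rs at hg
    induction rs with
    | nil => simp
    | cons p rs ih =>
      simp only [List.map_cons, List.sum_cons, Finset.sum_add_distrib]
      rw [ih (fun q hq => hg q (by simp [hq]))]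
      congr 1
      rw [← Finset.mul_sum, sum_holds pneg p.2 (hg p (by simp))]
      simp only [Function.comp, map_mul, MvPolynomial.eval_C, eval_polyL]
      congr 1
      refine Finset.sum_congr rfl fun c _ => ?_
      exact prod_ext p.2 (hg p (by simp)) ch (fun q hq => (hch.1 q hq).1) c
  exact e3

end Pool.Agent.H802R3.Vas
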