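import Mathlib

/-!
# Uni-trivalent graphs modulo AS and IHX

The spaces `𝓑` and `𝓑_conn^{(d,u)}` of uni-trivalent graphs (open Jacobi diagrams) over `ℚ`, the
numbers `β_{d,u}` and the power series `F_j(t) = ∑_k β_{k+j,k} t^k`.
-/

set_option autoImplicit false

namespace Pool.Agent.H802R3.Vas

/-- The half-edges of a uni-trivalent graph with `n` trivalent and `u` univalent vertices:
`Sum.inl (v, i)` is the `i`-th half-edge at the trivalent vertex `v`, and the cyclic order of the
three half-edges at `v` is `0, 1, 2`; `Sum.inr l` is the half-edge at the univalent vertex `l`. -/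
abbrev Half (n u : ℕ) : Type := (Fin n × Fin 3) ⊕ Fin u

/-- A uni-trivalent graph (not necessarily connected, loops and multiple edges allowed) with a
cyclic order of the three half-edges at each trivalent vertex: `mate` is the pairing of the
half-edges whose pairs are the edges. -/
structure Graph where
  /-- the number of trivalent vertices -/
  n : ℕ
  /-- the number of univalent vertices -/
  u : ℕ
  /-- the other half-edge of the edge containing a given half-edge -/
  mate : Half n u → Half n u
  mate_mate : ∀ h, mate (mate h) = h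
  mate_ne : ∀ h, mate h ≠ h

/-- Renaming half-edges along bijections `π` of the trivalent and `ρ` of the univalent vertices,
with a rotation by `r v` of the cyclically ordered half-edges at each trivalent vertex `v`. -/
def relabel {n u n' u' : ℕ} (π : Fin n ≃ Fin n') (r : Fin n → Fin 3) (ρ : Fin u ≃ Fin u') :
    Half n u → Half n' u'
  | Sum.inl (v, i) => Sum.inl (π v, i + r v)
  | Sum.inr l => Sum.inr (ρ l)

/-- `D` and `E` are isomorphic as graphs with cyclic orders at the trivalent vertices. -/
def Graph.Iso (D E : Graph) : Prop :=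
  ∃ (π : Fin D.n ≃ Fin E.n) (r : Fin D.n → Fin 3) (ρ : Fin D.u ≃ Fin E.u),
    ∀ h, E.mate (relabel π r ρ h) = relabel π r ρ (D.mate h)

/-- The graph in which the half-edge `σ h` takes the place of the half-edge `h`: its edges are the
pairs `{σ h, σ (D.mate h)}`. -/
def Graph.conj (D : Graph) (σ : Equiv.Perm (Half D.n D.u)) : Graph where
  n := D.n
  u := D.u
  mate h := σ (D.mate (σ.symm h))
  mate_mate h := by simp [D.mate_mate]
  mate_ne h := by
    intro e
    have := D.mate_ne (σ.symm h)
    apply this
    rw [Equiv.eq_symm_apply]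
    exact e

/-- Reversal of the cyclic order at the trivalent vertex `v`. -/
def Graph.flip (D : Graph) (v : Fin D.n) : Graph :=
  D.conj (Equiv.swap (Sum.inl (v, 1)) (Sum.inl (v, 2)))

/-- The cyclic permutation `(v,1) ↦ (v,2) ↦ (w,1) ↦ (v,1)` of three half-edges. -/
def cyc {n u : ℕ} (v w : Fin n) : Equiv.Perm (Half n u) :=
  Equiv.swap (Sum.inl (v, 1)) (Sum.inl (v, 2)) * Equiv.swap (Sum.inl (v, 2)) (Sum.inl (w, 1))

/-- The relations: isomorphic graphs are equal; (AS) reversing the cyclic order at a trivalent
vertex changes the sign; (IHX) if `{(v,0), (w,0)}` is an edge joining two distinct trivalent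
vertices, the sum of the three graphs obtained by permuting cyclically what is attached to
`(v,1)`, `(v,2)`, `(w,1)` is zero. -/
def relations : Set (Graph →₀ ℚ) :=
  {z | (∃ D E : Graph, D.Iso E ∧ z = Finsupp.single D 1 - Finsupp.single E 1) ∨
    (∃ (D : Graph) (v : Fin D.n), z = Finsupp.single D 1 + Finsupp.single (D.flip v) 1) ∨
    (∃ (D : Graph) (v w : Fin D.n), v ≠ w ∧ D.mate (Sum.inl (v, 0)) = Sum.inl (w, 0) ∧
      z = Finsupp.single D 1 + Finsupp.single (D.conj (cyc v w)) 1 +
        Finsupp.single (D.conj (cyc v w * cyc v w)) 1)}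

/-- The `ℚ`-vector space `𝓑` spanned by the uni-trivalent graphs modulo AS and IHX. -/
noncomputable abbrev B : Type := (Graph →₀ ℚ) ⧸ Submodule.span ℚ relations

/-- The class of a graph in `𝓑`. -/
noncomputable def cls (D : Graph) : B := Submodule.Quotient.mk (Finsupp.single D 1)

/-- Two half-edges form an edge, or belong to the same trivalent vertex. -/
inductive Graph.Adj (D : Graph) : Half D.n D.u → Half D.n D.u → Prop
  | edge (h : Half D.n D.u) : Graph.Adj D h (D.mate h)
  | vertex (v : Fin D.n) (i j : Fin 3) : Graph.Adj D (Sum.inl (v, i)) (Sum.inl (v, j))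

/-- The graph is non-empty and connected. -/
def Graph.Connected (D : Graph) : Prop :=
  Nonempty (Half D.n D.u) ∧ ∀ h h', Relation.EqvGen D.Adj h h'

/-- `𝓑_conn^{(d,u)}`: the subspace of `𝓑` spanned by the connected uni-trivalent graphs with `2 d`
vertices, `u` of which are univalent. -/
noncomputable def Bconn (d u : ℕ) : Submodule ℚ B :=
  Submodule.span ℚ {b | ∃ D : Graph, D.Connected ∧ D.n + D.u = 2 * d ∧ D.u = u ∧ b = cls D}

/-- `β_{d,u} = dim 𝓑_conn^{(d,u)}`. -/
noncomputable def beta (d u : ℕ) : ℕ := Module.finrank ℚ (Bconn d u)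

/-- `F_j(t) = ∑_k β_{k+j,k} t^k`. -/
noncomputable def F (j : ℕ) : PowerSeries ℚ := PowerSeries.mk fun k => (beta (k + j) k : ℚ)

end Pool.Agent.H802R3.Vas
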