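import Pool.Agent.H802R3.Vas.DataC

/-!
# The lower bound for `β_{23,20}`
-/

set_option autoImplicit false

namespace Pool.Agent.H802R3.Vas

open Finset

/-! ### The two cubic graphs -/

/-- the two half-edges belong to the same vertex -/
def SameV (h h' : Half 6 0) : Prop := ∃ (v : Fin 6) (i j : Fin 3), h = Sum.inl (v, i) ∧
  h' = Sum.inl (v, j)

instance (h h' : Half 6 0) : Decidable (SameV h h') := by unfold SameV; infer_instance

lemma connected_of_parent (mt : Half 6 0 → Half 6 0) (h1 : ∀ h, mt (mt h) = h)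
    (h2 : ∀ h, mt h ≠ h) (par : Half 6 0 → Half 6 0)
    (hp : ∀ h, par h = mt h ∨ SameV h (par h)) (N : ℕ) (hN : ∀ h, par^[N] h = dec 0) :
    (⟨6, 0, mt, h1, h2⟩ : Graph).Connected := by
  refine ⟨⟨(dec 0 : Half 6 0)⟩, ?_⟩
  have s1 : ∀ h : Half 6 0, Relation.EqvGen (⟨6, 0, mt, h1, h2⟩ : Graph).Adj h (par h) := by
    intro h
    rcases hp h with e | ⟨v, i, j, e1, e2⟩
    · rw [e]
      exact Relation.EqvGen.rel _ _ (Graph.Adj.edge (D := ⟨6, 0, mt, h1, h2⟩) h)
    · rw [e2, e1]
      exact Relation.EqvGen.rel _ _ (Graph.Adj.vertex (D := ⟨6, 0, mt, h1, h2⟩) v i j)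
  have s2 : ∀ (n : ℕ) (h : Half 6 0),
      Relation.EqvGen (⟨6, 0, mt, h1, h2⟩ : Graph).Adj h (par^[n] h) := by
    intro n
    induction n with
    | zero => intro h; exact Relation.EqvGen.refl _
    | succ n ih =>
      intro h
      rw [Function.iterate_succ_apply]
      exact Relation.EqvGen.trans _ _ _ (s1 h) (ih (par h))
  intro a b
  have ha := s2 N a
  have hb := s2 N b
  rw [hN] at ha hb
  exact Relation.EqvGen.trans _ _ _ ha (Relation.EqvGen.symm _ _ hb)

/-- the pairing tables of the two cubic graphs -/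
def tt : ℕ → List ℕ
  | 0 => t1
  | _ => t2

/-- the edge lists of the two cubic graphs -/
def EE : ℕ → List (ℕ × ℕ)
  | 0 => E1
  | _ => E2

/-- the states of the two cubic graphs -/
def rsL : ℕ → List (ℕ × List ℕ)
  | 0 => rs1
  | _ => rs2

lemma mateOf_inv : ∀ (c : ℕ) (h : Half 6 0), mateOf (tt c) (mateOf (tt c) h) = h
  | 0 => by decide
  | _ + 1 => by simp only [tt]; decide

lemma mateOf_ne : ∀ (c : ℕ) (h : Half 6 0), mateOf (tt c) h ≠ h
  | 0 => by decide
  | _ + 1 => by simp only [tt]; decide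

lemma edgeList_EE : ∀ c : ℕ, IsEdgeList (mateOf (tt c)) (EE c)
  | 0 => by
    refine ⟨by decide, by decide +kernel, by decide +kernel⟩
  | _ + 1 => by
    simp only [tt, EE]
    refine ⟨by decide, by decide +kernel, by decide +kernel⟩

lemma run_EE : ∀ c : ℕ, (run (EE c) r0 0).filter (fun p => 4 ≤ (roots p.2).length) = rsL c
  | 0 => run_1
  | _ + 1 => run_2

/-- the two cubic graphs with six vertices -/
def core (c : ℕ) : Graph := ⟨6, 0, mateOf (tt c), mateOf_inv c, mateOf_ne c⟩

/-- half-edges closer to the first vertex -/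
def par : ℕ → Half 6 0 → Half 6 0
  | 0, h => dec ([0, 0, 0, 4, 6, 4, 8, 8, 1, 11, 11, 0, 10, 12, 12, 2, 15, 15].getD (code h) 0)
  | _, h => dec ([0, 0, 0, 17, 3, 3, 8, 8, 1, 11, 11, 0, 10, 12, 12, 2, 15, 15].getD (code h) 0)

lemma core_connected : ∀ c : ℕ, (core c).Connected
  | 0 => connected_of_parent _ _ _ (par 0) (by decide +kernel) 12 (by decide +kernel)
  | c + 1 => connected_of_parent _ _ _ (par 1) (by
      intro h
      show par 1 h = mateOf t2 h ∨ SameV h (par 1 h)
      revert h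
      decide +kernel) 12 (by decide +kernel)

/-- number of the cubic graph -/
def cj (j : ℕ) : ℕ := (chs.getD j (0, [])).1

/-- the positions and numbers of the legs -/
def hj (j : ℕ) : List (ℕ × ℕ) := (chs.getD j (0, [])).2

instance (ch : List (ℕ × ℕ)) : Decidable (OkCh ch) := by unfold OkCh; infer_instance

lemma hj_ok : ∀ j < 39, OkCh (hj j) := by decide +kernel

/-- the 39 graphs -/
def gr (j : ℕ) : Graph := (grow (core (cj j)) (legs (hj j))).1

lemma legs_length (ch : List (ℕ × ℕ)) : (legs ch).length = (ch.map Prod.snd).sum := by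
  induction ch with
  | nil => rfl
  | cons p ch ih =>
    have : legs (p :: ch) = List.replicate p.2 (dec p.1) ++ legs ch := rfl
    rw [this, List.length_append, ih, List.length_replicate, List.map_cons, List.sum_cons]

lemma legs_hj (j : ℕ) (hj' : j < 39) : (legs (hj j)).length = 20 := by
  rw [legs_length, (hj_ok j hj').2]

lemma gr_n (j : ℕ) (hj' : j < 39) : (gr j).n = 26 :=
  calc (gr j).n = 6 + (legs (hj j)).length := grow_n (core (cj j)) (legs (hj j))
    _ = 26 := by rw [legs_hj j hj']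

lemma gr_u (j : ℕ) (hj' : j < 39) : (gr j).u = 20 :=
  calc (gr j).u = 0 + (legs (hj j)).length := grow_u (core (cj j)) (legs (hj j))
    _ = 20 := by rw [legs_hj j hj']

lemma gr_connected (j : ℕ) : (gr j).Connected := grow_connected _ (core_connected _) _

/-- the polynomial of a graph -/
noncomputable def pj (j : ℕ) : MvPolynomial (Fin 4) ℤ := pcore (run (EE (cj j)) r0 0) (hj j)

theorem wt_gr (m : Fin 4 → ℕ) (j : ℕ) (hj' : j < 39) :
    wt pneg pneg_inv (px (m := m)) (gr j) =
      MvPolynomial.eval (fun c => (m c : ℤ)) (pj j) :=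
  wt_core m (mateOf (tt (cj j))) (mateOf_inv _) (mateOf_ne _) (EE (cj j)) (edgeList_EE _) (hj j)
    (hj_ok j hj')

/-- the exponents of a monomial -/
def av (i : ℕ) : Fin 4 → ℕ :=
  ![(alph.getD i (0, 0, 0, 0)).1, (alph.getD i (0, 0, 0, 0)).2.1,
    (alph.getD i (0, 0, 0, 0)).2.2.1, (alph.getD i (0, 0, 0, 0)).2.2.2]

lemma av_ok : ∀ i < 39, 4 ≤ av i 0 + av i 1 + av i 2 + av i 3 ∧
    av i 0 + av i 1 + av i 2 + av i 3 ≤ 5 := by decide +kernel

lemma alph_len : alph.length = 39 := by decide +kernel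

lemma alist_len : alist.length = 39 := by decide +kernel

lemma alist_get (i : ℕ) (hi : i < 39) : alist.getD i (0, []) =
    (av i 0 + av i 1 + av i 2 + av i 3, (arrL (av i 0 + av i 1 + av i 2 + av i 3) (av i)).map enc) := by
  have h1 : i < (alph.map fun a => (a.1 + a.2.1 + a.2.2.1 + a.2.2.2,
    (arrL (a.1 + a.2.1 + a.2.2.1 + a.2.2.2) ![a.1, a.2.1, a.2.2.1, a.2.2.2]).map enc)).length := by
    rw [List.length_map, alph_len]; exact hi
  have h2 : i < alph.length := by rw [alph_len]; exact hi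
  rw [alist_ok, List.getD_eq_getElem _ _ h1, List.getElem_map]
  unfold av
  rw [List.getD_eq_getElem _ _ h2]
  rfl

end Pool.Agent.H802R3.Vas
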