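import Pool.Agent.H802R3.Vas.Final

/-!
# The matrix of the functionals
-/

set_option autoImplicit false

namespace Pool.Agent.H802R3.Vas

open Finset

lemma rows_ok : ∀ j < 39, (alist.map fun a => stC a ((rsL (cj j)).map (sdat (hj j)))) =
    Mat.getD j []
  | 0, _ => (congrArg (fun s => alist.map fun a => stC a s) sts0_ok).trans row0_ok
  | 1, _ => (congrArg (fun s => alist.map fun a => stC a s) sts1_ok).trans row1_ok
  | 2, _ => (congrArg (fun s => alist.map fun a => stC a s) sts2_ok).trans row2_ok
  | 3, _ => (congrArg (fun s => alist.map fun a => stC a s) sts3_ok).trans row3_ok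
  | 4, _ => (congrArg (fun s => alist.map fun a => stC a s) sts4_ok).trans row4_ok
  | 5, _ => (congrArg (fun s => alist.map fun a => stC a s) sts5_ok).trans row5_ok
  | 6, _ => (congrArg (fun s => alist.map fun a => stC a s) sts6_ok).trans row6_ok
  | 7, _ => (congrArg (fun s => alist.map fun a => stC a s) sts7_ok).trans row7_ok
  | 8, _ => (congrArg (fun s => alist.map fun a => stC a s) sts8_ok).trans row8_ok
  | 9, _ => (congrArg (fun s => alist.map fun a => stC a s) sts9_ok).trans row9_ok
  | 10, _ => (congrArg (fun s => alist.map fun a => stC a s) sts10_ok).trans row10_ok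
  | 11, _ => (congrArg (fun s => alist.map fun a => stC a s) sts11_ok).trans row11_ok
  | 12, _ => (congrArg (fun s => alist.map fun a => stC a s) sts12_ok).trans row12_ok
  | 13, _ => (congrArg (fun s => alist.map fun a => stC a s) sts13_ok).trans row13_ok
  | 14, _ => (congrArg (fun s => alist.map fun a => stC a s) sts14_ok).trans row14_ok
  | 15, _ => (congrArg (fun s => alist.map fun a => stC a s) sts15_ok).trans row15_ok
  | 16, _ => (congrArg (fun s => alist.map fun a => stC a s) sts16_ok).trans row16_ok
  | 17, _ => (congrArg (fun s => alist.map fun a => stC a s) sts17_ok).trans row17_ok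
  | 18, _ => (congrArg (fun s => alist.map fun a => stC a s) sts18_ok).trans row18_ok
  | 19, _ => (congrArg (fun s => alist.map fun a => stC a s) sts19_ok).trans row19_ok
  | 20, _ => (congrArg (fun s => alist.map fun a => stC a s) sts20_ok).trans row20_ok
  | 21, _ => (congrArg (fun s => alist.map fun a => stC a s) sts21_ok).trans row21_ok
  | 22, _ => (congrArg (fun s => alist.map fun a => stC a s) sts22_ok).trans row22_ok
  | 23, _ => (congrArg (fun s => alist.map fun a => stC a s) sts23_ok).trans row23_ok
  | 24, _ => (congrArg (fun s => alist.map fun a => stC a s) sts24_ok).trans row24_ok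
  | 25, _ => (congrArg (fun s => alist.map fun a => stC a s) sts25_ok).trans row25_ok
  | 26, _ => (congrArg (fun s => alist.map fun a => stC a s) sts26_ok).trans row26_ok
  | 27, _ => (congrArg (fun s => alist.map fun a => stC a s) sts27_ok).trans row27_ok
  | 28, _ => (congrArg (fun s => alist.map fun a => stC a s) sts28_ok).trans row28_ok
  | 29, _ => (congrArg (fun s => alist.map fun a => stC a s) sts29_ok).trans row29_ok
  | 30, _ => (congrArg (fun s => alist.map fun a => stC a s) sts30_ok).trans row30_ok
  | 31, _ => (congrArg (fun s => alist.map fun a => stC a s) sts31_ok).trans row31_ok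
  | 32, _ => (congrArg (fun s => alist.map fun a => stC a s) sts32_ok).trans row32_ok
  | 33, _ => (congrArg (fun s => alist.map fun a => stC a s) sts33_ok).trans row33_ok
  | 34, _ => (congrArg (fun s => alist.map fun a => stC a s) sts34_ok).trans row34_ok
  | 35, _ => (congrArg (fun s => alist.map fun a => stC a s) sts35_ok).trans row35_ok
  | 36, _ => (congrArg (fun s => alist.map fun a => stC a s) sts36_ok).trans row36_ok
  | 37, _ => (congrArg (fun s => alist.map fun a => stC a s) sts37_ok).trans row37_ok
  | 38, _ => (congrArg (fun s => alist.map fun a => stC a s) sts38_ok).trans row38_ok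
  | _ + 39, h => by omega

theorem coeff_pj (j i : ℕ) (hj' : j < 39) (hi : i < 39) :
    ((MvPolynomial.coeff (Finsupp.equivFunOnFinite.symm (av i)) (pj j) : ℤ) : ZMod pp) =
      2 ^ 20 * (((Mat.getD j []).getD i 0 : ℕ) : ZMod pp) := by
  have hg := run_good (I := Pal (fun _ => 0)) pneg_inv (EE (cj j)) r0 0 r0_good
    (edgeList_EE (cj j)).1
  have h1 := coeff_pcore (run (EE (cj j)) r0 0) hg (hj j) (hj_ok j hj') (av i)
    (av i 0 + av i 1 + av i 2 + av i 3) rfl (av_ok i hi).2 (av_ok i hi).1
    ((arrL (av i 0 + av i 1 + av i 2 + av i 3) (av i)).map enc) rfl (rsL (cj j)) (run_EE (cj j))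
  unfold pj
  rw [h1, ← alist_get i hi]
  have h2 : i < (alist.map fun a => stC a ((rsL (cj j)).map (sdat (hj j)))).length := by
    rw [List.length_map, alist_len]; exact hi
  have h3 : i < alist.length := by rw [alist_len]; exact hi
  have h4 : (Mat.getD j []).getD i 0 =
      stC (alist.getD i (0, [])) ((rsL (cj j)).map (sdat (hj j))) := by
    rw [← rows_ok j hj', List.getD_eq_getElem _ _ h2, List.getElem_map,
      List.getD_eq_getElem _ _ h3]
  rw [h4]

/-- the integer matrix -/
noncomputable def cmat : Matrix (Fin 39) (Fin 39) ℤ := fun j i =>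
  MvPolynomial.coeff (Finsupp.equivFunOnFinite.symm (av i)) (pj j)

/-- the matrix modulo `pp` -/
def mz : Matrix (Fin 39) (Fin 39) (ZMod pp) := fun j i =>
  (((Mat.getD j []).getD i 0 : ℕ) : ZMod pp)

/-- the inverse matrix modulo `pp` -/
def nz : Matrix (Fin 39) (Fin 39) (ZMod pp) := fun i k =>
  (((Inv.getD k []).getD i 0 : ℕ) : ZMod pp)

lemma dot_cast (n : ℕ) : ∀ x y : List ℕ, x.length = n → y.length = n →
    (((List.zipWith (fun a b => a * b) x y).sum : ℕ) : ZMod pp) =
      ∑ i : Fin n, ((x.getD i 0 : ℕ) : ZMod pp) * ((y.getD i 0 : ℕ) : ZMod pp) := by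
  induction n with
  | zero =>
    intro x y hx hy
    rw [List.length_eq_zero_iff] at hx hy
    subst hx; subst hy
    simp
  | succ n ih =>
    intro x y hx hy
    cases x with
    | nil => simp at hx
    | cons a x =>
      cases y with
      | nil => simp at hy
      | cons b y =>
        rw [List.zipWith_cons_cons, List.sum_cons, Fin.sum_univ_succ, Nat.cast_add,
          ih x y (by simpa using hx) (by simpa using hy), Nat.cast_mul]
        rfl

lemma mz_mul_nz : mz * nz = 1 := by
  ext j k
  rw [Matrix.mul_apply]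
  have h := inv_ok j j.2 k k.2
  have h1 := dot_cast 39 _ _ (mat_len j j.2) (inv_len k k.2)
  have h2 : (((List.zipWith (fun a b => a * b) (Mat.getD j []) (Inv.getD k [])).sum : ℕ) :
      ZMod pp) = ((dot (Mat.getD j []) (Inv.getD k []) : ℕ) : ZMod pp) := by
    unfold dot
    rw [ZMod.natCast_mod]
  unfold mz nz
  rw [← h1, h2, h, Matrix.one_apply]
  by_cases hjk : j = k
  · subst hjk; simp
  · have : ¬ (j : ℕ) = (k : ℕ) := fun e => hjk (Fin.ext e)
    simp [this, hjk]

lemma cmat_map : cmat.map (Int.castRingHom (ZMod pp)) = (2 ^ 20 : ZMod pp) • mz := by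
  ext j i
  rw [Matrix.map_apply, Matrix.smul_apply]
  exact coeff_pj j i j.2 i.2

lemma det_cmat : cmat.det ≠ 0 := by
  intro h0
  have h1 : (cmat.map (Int.castRingHom (ZMod pp))).det = 0 := by
    rw [← RingHom.mapMatrix_apply, ← RingHom.map_det, h0, map_zero]
  have hc : (2 ^ 20 : ZMod pp) * (899803 : ZMod pp) = 1 := by
    have : ((2 ^ 20 * 899803 : ℕ) : ZMod pp) = ((1 : ℕ) : ZMod pp) := by
      rw [ZMod.natCast_eq_natCast_iff]
      decide
    push_cast at this
    exact this
  have h2 : (cmat.map (Int.castRingHom (ZMod pp))) * ((899803 : ZMod pp) • nz) = 1 := by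
    rw [cmat_map, Matrix.smul_mul, Matrix.mul_smul, mz_mul_nz, smul_smul, hc, one_smul]
  have h3 := congrArg Matrix.det h2
  rw [Matrix.det_mul, h1, zero_mul, Matrix.det_one] at h3
  have : Fact (1 < pp) := ⟨by norm_num [pp]⟩
  exact zero_ne_one h3

end Pool.Agent.H802R3.Vas
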