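import Pool.Agent.H802R3.Vas.Final2

/-!
# `β_{23,20} ≥ 39`, and the conjectured generating function
-/

set_option autoImplicit false

namespace Pool.Agent.H802R3.Vas

open Finset

lemma lin_indep : LinearIndependent ℚ (fun j : Fin 39 => cls (gr j)) := by
  rw [Fintype.linearIndependent_iff]
  intro a ha
  have h1 : ∀ m : Fin 4 → ℕ, ∑ j : Fin 39,
      a j * ((MvPolynomial.eval (fun c => (m c : ℤ)) (pj j) : ℤ) : ℚ) = 0 := by
    intro m
    have := congrArg (wtB pneg pneg_inv (px (m := m))) ha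
    rw [map_sum, map_zero] at this
    simp only [map_smul, wtB_cls, smul_eq_mul] at this
    rw [← this]
    refine Finset.sum_congr rfl fun j _ => ?_
    rw [wt_gr m j j.2]
  have h2 : (∑ j : Fin 39, MvPolynomial.C (a j) *
      MvPolynomial.map (Int.castRingHom ℚ) (pj j) : MvPolynomial (Fin 4) ℚ) = 0 := by
    refine MvPolynomial.funext_set (fun _ => Set.range (Nat.cast : ℕ → ℚ))
      (fun _ => Set.infinite_range_of_injective Nat.cast_injective) ?_
    intro x hx
    have hx' : ∀ c, ∃ n : ℕ, (n : ℚ) = x c := fun c => hx c (Set.mem_univ c)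
    choose m hm using hx'
    have hx2 : x = fun c => ((m c : ℕ) : ℚ) := by funext c; exact (hm c).symm
    rw [map_zero, map_sum, ← h1 m]
    refine Finset.sum_congr rfl fun j _ => ?_
    rw [map_mul, MvPolynomial.eval_C, hx2]
    congr 1
    have h3 := MvPolynomial.map_eval (Int.castRingHom ℚ) (fun c => ((m c : ℕ) : ℤ)) (pj j)
    simp only [eq_intCast] at h3
    rw [h3]
    congr 1
  have h3 : Matrix.vecMul a (cmat.map (Int.castRingHom ℚ)) = 0 := by
    funext i
    have := congrArg (MvPolynomial.coeff (Finsupp.equivFunOnFinite.symm (av i))) h2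
    rw [MvPolynomial.coeff_zero, MvPolynomial.coeff_sum] at this
    simp only [MvPolynomial.coeff_C_mul, MvPolynomial.coeff_map] at this
    exact this
  have h4 : (cmat.map (Int.castRingHom ℚ)).det ≠ 0 := by
    rw [← RingHom.mapMatrix_apply, ← RingHom.map_det]
    simpa using det_cmat
  have h5 := Matrix.eq_zero_of_vecMul_eq_zero h4 h3
  intro j
  rw [h5]
  rfl

/-- the graphs with given numbers of vertices form a finite set -/
lemma finite_graphs (n u : ℕ) : {D : Graph | D.n = n ∧ D.u = u}.Finite := by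
  let T := {f : Half n u → Half n u // (∀ h, f (f h) = h) ∧ ∀ h, f h ≠ h}
  have : Finite T := inferInstance
  let g : T → Graph := fun f => ⟨n, u, f.1, f.2.1, f.2.2⟩
  refine (Set.finite_range g).subset ?_
  rintro ⟨n', u', mt, h1, h2⟩ ⟨e1, e2⟩
  simp only at e1 e2
  subst e1; subst e2
  exact ⟨⟨mt, h1, h2⟩, rfl⟩

instance finite_Bconn (d u : ℕ) : Module.Finite ℚ (Bconn d u) := by
  unfold Bconn
  refine Module.Finite.span_of_finite ℚ ?_
  have hf := (finite_graphs (2 * d - u) u).image cls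
  refine hf.subset ?_
  rintro b ⟨D, _, h1, h2, rfl⟩
  exact ⟨D, ⟨by omega, h2⟩, rfl⟩

theorem le_beta : 39 ≤ beta 23 20 := by
  have hmem : ∀ j : Fin 39, cls (gr j) ∈ Bconn 23 20 := by
    intro j
    refine Submodule.subset_span ⟨gr j, gr_connected j, ?_, gr_u j j.2, rfl⟩
    rw [gr_n j j.2, gr_u j j.2]
  have hli : LinearIndependent ℚ (fun j : Fin 39 => (⟨cls (gr j), hmem j⟩ : Bconn 23 20)) := by
    refine LinearIndependent.of_comp (Bconn 23 20).subtype ?_
    exact lin_indep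
  have := hli.fintype_card_le_finrank
  rw [Fintype.card_fin] at this
  exact this

open PowerSeries in
/-- The rational function of Dasbach's conjecture. -/
noncomputable def dasbach : PowerSeries ℚ :=
  (1 + X ^ 2 + X ^ 8 - X ^ 10) * ((1 - X ^ 2) * (1 - X ^ 4) * (1 - X ^ 6) * (1 - X ^ 10))⁻¹

open PowerSeries in
lemma coeff_dasbach : PowerSeries.coeff 20 dasbach = (38 : ℚ) := by
  set den : PowerSeries ℚ := (1 - X ^ 2) * (1 - X ^ 4) * (1 - X ^ 6) * (1 - X ^ 10) with hden
  have hc : constantCoeff den ≠ 0 := by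
    simp [hden]
  have h1 : den * den⁻¹ = 1 := PowerSeries.mul_inv_cancel den hc
  let q : PowerSeries ℚ := 1 + C (2 : ℚ) * X ^ 2 + C (3 : ℚ) * X ^ 4 + C (5 : ℚ) * X ^ 6 +
    C (8 : ℚ) * X ^ 8 + C (10 : ℚ) * X ^ 10 + C (15 : ℚ) * X ^ 12 + C (19 : ℚ) * X ^ 14 +
    C (24 : ℚ) * X ^ 16 + C (31 : ℚ) * X ^ 18 + C (38 : ℚ) * X ^ 20
  let r : PowerSeries ℚ := -46 - 10 * X ^ 2 + 36 * X ^ 4 + 44 * X ^ 6 + 7 * X ^ 8 + 7 * X ^ 10 +
    10 * X ^ 12 - 36 * X ^ 14 - 45 * X ^ 16 - 7 * X ^ 18 + 38 * X ^ 20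
  have h2 : (1 + X ^ 2 + X ^ 8 - X ^ 10 : PowerSeries ℚ) = q * den - X ^ 22 * r := by
    simp only [q, r, hden, map_ofNat]
    ring
  have h3 : dasbach = q - X ^ 22 * (r * den⁻¹) := by
    unfold dasbach
    rw [← hden, h2, sub_mul, mul_assoc, h1, mul_one, mul_assoc]
  rw [h3, map_sub, PowerSeries.coeff_X_pow_mul']
  simp only [q, map_add, PowerSeries.coeff_C_mul, PowerSeries.coeff_X_pow, PowerSeries.coeff_one]
  norm_num

theorem not_dasbach : F 3 ≠ dasbach := by
  intro h
  have h1 := congrArg (PowerSeries.coeff 20) h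
  rw [coeff_dasbach] at h1
  have h2 : PowerSeries.coeff 20 (F 3) = (beta 23 20 : ℚ) := by
    unfold F
    rw [PowerSeries.coeff_mk]
  rw [h2] at h1
  have h3 : beta 23 20 = 38 := by exact_mod_cast h1
  have := le_beta
  omega

end Pool.Agent.H802R3.Vas
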