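import Pool.Agent.H802R3.Vas.Leg2

/-!
# Adding many legs; functionals on the space of graphs
-/

set_option autoImplicit false

namespace Pool.Agent.H802R3.Vas

open Finset

variable {I : Type} [Fintype I] [DecidableEq I]

/-- the graph with legs attached at the half-edges of a list, and the inclusion of half-edges -/
def grow (Γ : Graph) : List (Half Γ.n Γ.u) → (D : Graph) × (Half Γ.n Γ.u → Half D.n D.u)
  | [] => ⟨Γ, id⟩
  | h :: t => ⟨addLeg (grow Γ t).1 ((grow Γ t).2 h), emb ∘ (grow Γ t).2⟩

lemma grow_n (Γ : Graph) (L : List (Half Γ.n Γ.u)) : (grow Γ L).1.n = Γ.n + L.length := by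
  induction L with
  | nil => rfl
  | cons h t ih =>
    show (grow Γ t).1.n + 1 = _
    rw [ih, List.length_cons]; ring

lemma grow_u (Γ : Graph) (L : List (Half Γ.n Γ.u)) : (grow Γ L).1.u = Γ.u + L.length := by
  induction L with
  | nil => rfl
  | cons h t ih =>
    show (grow Γ t).1.u + 1 = _
    rw [ih, List.length_cons]; ring

omit [Fintype I] [DecidableEq I] in
lemma lab_emb {n u : ℕ} (k : Half (n + 1) (u + 1) → I) (a : Half n u) :
    lab k (emb a) = lab (k ∘ emb) a := by
  rcases a with ⟨v, i⟩ | j <;> rfl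

omit [Fintype I] [DecidableEq I] in
lemma lab_grow (Γ : Graph) (L : List (Half Γ.n Γ.u)) :
    ∀ (k : Half (grow Γ L).1.n (grow Γ L).1.u → I) (a : Half Γ.n Γ.u),
      lab k ((grow Γ L).2 a) = lab (k ∘ (grow Γ L).2) a := by
  induction L with
  | nil => intro k a; rfl
  | cons h t ih =>
    intro k a
    have h1 : lab k ((grow Γ (h :: t)).2 a) = lab (k ∘ emb) ((grow Γ t).2 a) :=
      lab_emb k ((grow Γ t).2 a)
    rw [h1, ih]
    rfl

lemma wtF_grow (ν : I → I) (hν : Function.Involutive ν) (x : I → ℤ)
    (hx : ∀ i, x (ν i) = - x i) (Γ : Graph) (L : List (Half Γ.n Γ.u)) :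
    ∀ G : (Half Γ.n Γ.u → I) → ℤ,
      wtF ν hν x (grow Γ L).1 (fun k => G (k ∘ (grow Γ L).2)) =
        wtF ν hν x Γ (fun k => (L.map fun h => 2 * (x (lab k h).2 - x (lab k h).1)).prod * G k) := by
  induction L with
  | nil => intro G; simp [grow]
  | cons h t ih =>
    intro G
    have h1 := wtF_addLeg ν hν x hx (grow Γ t).1 ((grow Γ t).2 h)
      (fun k' => G (k' ∘ (grow Γ t).2))
    refine Eq.trans h1 ?_
    have h2 := ih (fun k => (2 * (x (lab k h).2 - x (lab k h).1)) * G k)
    simp only [lab_grow]
    rw [h2]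
    congr 1
    funext k
    rw [List.map_cons, List.prod_cons]
    ring

/-- The state sum of a graph with many legs. -/
theorem wt_grow (ν : I → I) (hν : Function.Involutive ν) (x : I → ℤ)
    (hx : ∀ i, x (ν i) = - x i) (Γ : Graph) (L : List (Half Γ.n Γ.u)) :
    wt ν hν x (grow Γ L).1 =
      wtF ν hν x Γ (fun k => (L.map fun h => 2 * (x (lab k h).2 - x (lab k h).1)).prod) := by
  rw [← wtF_one]
  have := wtF_grow ν hν x hx Γ L (fun _ => 1)
  simpa using this

lemma addLeg_adj (D : Graph) (h : Half D.n D.u) {a b : Half D.n D.u} (hab : D.Adj a b) :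
    Relation.EqvGen (addLeg D h).Adj (emb a) (emb b) := by
  cases hab with
  | edge a =>
    by_cases h1 : a = h
    · subst h1
      refine Relation.EqvGen.trans _ (nw 0) _ ?_ (Relation.EqvGen.trans _ (nw 1) _ ?_ ?_)
      · have := Graph.Adj.edge (D := addLeg D a) (emb a)
        rw [show (addLeg D a).mate (emb a) = nw 0 from legMate_h D a] at this
        exact Relation.EqvGen.rel _ _ this
      · exact Relation.EqvGen.rel _ _ (Graph.Adj.vertex (D := addLeg D a) (Fin.last D.n) 0 1)
      · have := Graph.Adj.edge (D := addLeg D a) (nw 1)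
        rw [show (addLeg D a).mate (nw 1) = emb (D.mate a) from legMate_1 D a] at this
        exact Relation.EqvGen.rel _ _ this
    by_cases h2 : a = D.mate h
    · subst h2
      rw [D.mate_mate]
      refine Relation.EqvGen.trans _ (nw 1) _ ?_ (Relation.EqvGen.trans _ (nw 0) _ ?_ ?_)
      · have := Graph.Adj.edge (D := addLeg D h) (emb (D.mate h))
        rw [show (addLeg D h).mate (emb (D.mate h)) = nw 1 from legMate_mh D h] at this
        exact Relation.EqvGen.rel _ _ this
      · exact Relation.EqvGen.rel _ _ (Graph.Adj.vertex (D := addLeg D h) (Fin.last D.n) 1 0)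
      · have := Graph.Adj.edge (D := addLeg D h) (nw 0)
        rw [show (addLeg D h).mate (nw 0) = emb h from legMate_0 D h] at this
        exact Relation.EqvGen.rel _ _ this
    have := Graph.Adj.edge (D := addLeg D h) (emb a)
    rw [show (addLeg D h).mate (emb a) = emb (D.mate a) from legMate_o D h a h1 h2] at this
    exact Relation.EqvGen.rel _ _ this
  | vertex v i j =>
    exact Relation.EqvGen.rel _ _ (Graph.Adj.vertex (D := addLeg D h) (Fin.castSucc v) i j)

lemma addLeg_eqv (D : Graph) (h : Half D.n D.u) {a b : Half D.n D.u}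
    (hab : Relation.EqvGen D.Adj a b) :
    Relation.EqvGen (addLeg D h).Adj (emb a) (emb b) := by
  induction hab with
  | rel a b hab => exact addLeg_adj D h hab
  | refl a => exact Relation.EqvGen.refl _
  | symm a b _ ih => exact Relation.EqvGen.symm _ _ ih
  | trans a b c _ _ ih1 ih2 => exact Relation.EqvGen.trans _ _ _ ih1 ih2

lemma addLeg_connected (D : Graph) (h : Half D.n D.u) (hD : D.Connected) :
    (addLeg D h).Connected := by
  refine ⟨⟨nw 0⟩, ?_⟩
  have key : ∀ a : Half (D.n + 1) (D.u + 1), Relation.EqvGen (addLeg D h).Adj a (emb h) := by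
    have h0 : Relation.EqvGen (addLeg D h).Adj (nw 0) (emb h) := by
      have := Graph.Adj.edge (D := addLeg D h) (nw 0)
      rw [show (addLeg D h).mate (nw 0) = emb h from legMate_0 D h] at this
      exact Relation.EqvGen.rel _ _ this
    have hi : ∀ i, Relation.EqvGen (addLeg D h).Adj (nw i) (emb h) := fun i =>
      Relation.EqvGen.trans _ _ _
        (Relation.EqvGen.rel _ _ (Graph.Adj.vertex (D := addLeg D h) (Fin.last D.n) i 0)) h0
    refine half_cases ?_ ?_ ?_
    · intro a
      exact addLeg_eqv D h (hD.2 a h)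
    · exact hi
    · have := Graph.Adj.edge (D := addLeg D h) lf
      rw [show (addLeg D h).mate lf = nw 2 from legMate_lf D h] at this
      exact Relation.EqvGen.trans _ _ _ (Relation.EqvGen.rel _ _ this) (hi 2)
  intro a b
  exact Relation.EqvGen.trans _ _ _ (key a) (Relation.EqvGen.symm _ _ (key b))

lemma grow_connected (Γ : Graph) (hΓ : Γ.Connected) (L : List (Half Γ.n Γ.u)) :
    (grow Γ L).1.Connected := by
  induction L with
  | nil => exact hΓ
  | cons h t ih => exact addLeg_connected _ _ ih

/-- The linear functional on `𝓑` given by the state sum. -/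
noncomputable def wtB (ν : I → I) (hν : Function.Involutive ν) (x : I → ℤ) : B →ₗ[ℚ] ℚ :=
  Submodule.liftQ _ (Finsupp.lsum ℚ fun D : Graph => (wt ν hν x D : ℚ) • LinearMap.id) (by
    rw [Submodule.span_le]
    rintro z (⟨D, E, h, rfl⟩ | ⟨D, v, rfl⟩ | ⟨D, v, w, hvw, hm, rfl⟩)
    · simp only [SetLike.mem_coe, LinearMap.mem_ker, map_sub, Finsupp.lsum_single,
        LinearMap.smul_apply, LinearMap.id_apply, smul_eq_mul, mul_one]
      rw [wt_iso ν hν x h, sub_self]
    · simp only [SetLike.mem_coe, LinearMap.mem_ker, map_add, Finsupp.lsum_single,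
        LinearMap.smul_apply, LinearMap.id_apply, smul_eq_mul, mul_one]
      rw [wt_flip ν hν x D v]
      push_cast
      ring
    · have := wt_ihx ν hν x D v w hvw hm
      simp only [SetLike.mem_coe, LinearMap.mem_ker, map_add, Finsupp.lsum_single,
        LinearMap.smul_apply, LinearMap.id_apply, smul_eq_mul, mul_one]
      exact_mod_cast this)

lemma wtB_cls (ν : I → I) (hν : Function.Involutive ν) (x : I → ℤ) (D : Graph) :
    wtB ν hν x (cls D) = wt ν hν x D := by
  simp only [wtB, cls]
  erw [Submodule.liftQ_apply]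
  simp

end Pool.Agent.H802R3.Vas
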