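import Pool.Agent.H802R3.Vas.Rel

/-!
# The state sum satisfies IHX
-/

set_option autoImplicit false

namespace Pool.Agent.H802R3.Vas

open Finset

variable {I : Type} [Fintype I] [DecidableEq I]

lemma cyc_cube {n u : ℕ} (v w : Fin n) (hvw : v ≠ w) :
    (cyc v w : Equiv.Perm (Half n u)) * (cyc v w * cyc v w) = 1 := by
  refine Equiv.ext fun h => ?_
  simp only [Equiv.Perm.coe_mul, Function.comp, Equiv.Perm.coe_one, id]
  by_cases h1 : h = Sum.inl (v, 1)
  · subst h1; rw [cyc_v1 v w hvw, cyc_v2 v w hvw, cyc_w1]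
  by_cases h2 : h = Sum.inl (v, 2)
  · subst h2; rw [cyc_v2 v w hvw, cyc_w1, cyc_v1 v w hvw]
  by_cases h3 : h = Sum.inl (w, 1)
  · subst h3; rw [cyc_w1, cyc_v1 v w hvw, cyc_v2 v w hvw]
  rw [cyc_other v w h h1 h2 h3, cyc_other v w h h1 h2 h3, cyc_other v w h h1 h2 h3]

/-- the product over the edges other than `{(v,0),(w,0)}` -/
def ee (ν : I → I) (hν : Function.Involutive ν) (D : Graph) (v w : Fin D.n)
    (l : Half D.n D.u → I × I) : ℤ :=
  ∏ e ∈ D.edges.erase s(Sum.inl (v, 0), Sum.inl (w, 0)), kedge ν hν l e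

/-- the straight part -/
def aa (ν : I → I) (hν : Function.Involutive ν) (x : I → ℤ) (D : Graph) (v w : Fin D.n)
    (τ : Equiv.Perm (Half D.n D.u)) : ℤ :=
  ∑ k : Half D.n D.u → I, if SS v w k then
    (∏ l : Fin D.u, x (k (Sum.inr l))) * ee ν hν D v w (lab k ∘ τ) else 0

/-- the twisted part -/
def bb (ν : I → I) (hν : Function.Involutive ν) (x : I → ℤ) (D : Graph) (v w : Fin D.n)
    (τ : Equiv.Perm (Half D.n D.u)) : ℤ :=
  ∑ k : Half D.n D.u → I, if TT ν v w k then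
    (∏ l : Fin D.u, x (k (Sum.inr l))) * ee ν hν D v w (lab k ∘ τ) else 0

lemma wt_conj_eq (ν : I → I) (hν : Function.Involutive ν) (x : I → ℤ) (D : Graph)
    (v w : Fin D.n) (hm : D.mate (Sum.inl (v, 0)) = Sum.inl (w, 0))
    (τ : Equiv.Perm (Half D.n D.u)) (h1 : τ (Sum.inl (v, 0)) = Sum.inl (v, 0))
    (h2 : τ (Sum.inl (w, 0)) = Sum.inl (w, 0)) :
    wt ν hν x (D.conj τ) = aa ν hν x D v w τ - bb ν hν x D v w τ := by
  rw [wt_conj]
  unfold aa bb
  rw [← Finset.sum_sub_distrib]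
  refine Finset.sum_congr rfl fun k _ => ?_
  have he : s(Sum.inl (v, 0), Sum.inl (w, 0)) ∈ D.edges := by
    rw [← hm]; exact D.mk_mem_edges _
  rw [← Finset.mul_prod_erase D.edges _ he, kedge_mk]
  have hk : kap ν ((lab k ∘ τ) (Sum.inl (v, 0))) ((lab k ∘ τ) (Sum.inl (w, 0))) =
      (if SS v w k then 1 else 0) - (if TT ν v w k then 1 else 0) := by
    simp only [Function.comp, h1, h2, lab, kap, SS, TT, zero_add]
  rw [hk]
  unfold ee
  by_cases hs : SS v w k <;> by_cases ht : TT ν v w k <;> simp [hs, ht]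

omit [Fintype I] [DecidableEq I] in
lemma ihxK_SS {ν : I → I} (hν : Function.Involutive ν) {n u : ℕ} (v w : Fin n) (hvw : v ≠ w)
    (k : Half n u → I) (_hk : SS v w k) : TT ν v w (ihxK ν v w k) := by
  constructor
  · simp [ihxK, hvw.symm, hν _]
  · simp [ihxK, hvw.symm, hν _]

omit [Fintype I] [DecidableEq I] in
lemma ihxK'_TT {ν : I → I} {n u : ℕ} (v w : Fin n) (hvw : v ≠ w)
    (k : Half n u → I) (_hk : TT ν v w k) : SS v w (ihxK' ν v w k) := by
  constructor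
  · simp [ihxK', hvw.symm]
  · simp [ihxK', hvw.symm]

omit [Fintype I] [DecidableEq I] in
lemma ihx_left {ν : I → I} (hν : Function.Involutive ν) {n u : ℕ} (v w : Fin n) (hvw : v ≠ w)
    (k : Half n u → I) (hk : SS v w k) : ihxK' ν v w (ihxK ν v w k) = k := by
  obtain ⟨k1, k2⟩ := hk
  funext h
  by_cases h0 : h = Sum.inl (v, 0)
  · subst h0; simp [ihxK, ihxK']
  by_cases h1 : h = Sum.inl (v, 1)
  · subst h1; simp [ihxK, ihxK', hvw.symm, hν _]
  by_cases h2 : h = Sum.inl (v, 2)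
  · subst h2; simp [ihxK, ihxK']
  by_cases h3 : h = Sum.inl (w, 0)
  · subst h3; simp [ihxK, ihxK', hvw.symm, hν _, k2]
  by_cases h4 : h = Sum.inl (w, 1)
  · subst h4; simp [ihxK, ihxK', hvw.symm, k1]
  by_cases h5 : h = Sum.inl (w, 2)
  · subst h5; simp [ihxK, ihxK', hvw.symm]
  simp [ihxK, ihxK', h0, h1, h2, h3, h4, h5]

omit [Fintype I] [DecidableEq I] in
lemma ihx_right {ν : I → I} (hν : Function.Involutive ν) {n u : ℕ} (v w : Fin n) (hvw : v ≠ w)
    (k : Half n u → I) (hk : TT ν v w k) : ihxK ν v w (ihxK' ν v w k) = k := by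
  obtain ⟨k1, k2⟩ := hk
  funext h
  by_cases h0 : h = Sum.inl (v, 0)
  · subst h0; simp [ihxK, ihxK', hvw.symm]
  by_cases h1 : h = Sum.inl (v, 1)
  · subst h1; simp [ihxK, ihxK']
  by_cases h2 : h = Sum.inl (v, 2)
  · subst h2; simp [ihxK, ihxK']
  by_cases h3 : h = Sum.inl (w, 0)
  · subst h3; simp [ihxK, ihxK', hvw.symm, hν _, k1]
  by_cases h4 : h = Sum.inl (w, 1)
  · subst h4; simp [ihxK, ihxK', hvw.symm, hν _, k2]
  by_cases h5 : h = Sum.inl (w, 2)
  · subst h5; simp [ihxK, ihxK', hvw.symm, hν _]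
  simp [ihxK, ihxK', h0, h1, h2, h3, h4, h5]

omit [Fintype I] in
lemma ee_ihx (ν : I → I) (hν : Function.Involutive ν) (D : Graph)
    (v w : Fin D.n) (hvw : v ≠ w) (hm : D.mate (Sum.inl (v, 0)) = Sum.inl (w, 0))
    (τ : Equiv.Perm (Half D.n D.u)) (h1 : τ (Sum.inl (v, 0)) = Sum.inl (v, 0))
    (h2 : τ (Sum.inl (w, 0)) = Sum.inl (w, 0)) (k : Half D.n D.u → I) (hk : SS v w k) :
    ee ν hν D v w (lab (ihxK ν v w k) ∘ ((cyc v w)⁻¹ * τ : Equiv.Perm (Half D.n D.u))) =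
      ee ν hν D v w (lab k ∘ τ) := by
  obtain ⟨k1, k2⟩ := hk
  have hne : ∀ a, a ≠ Sum.inl (v, 0) → a ≠ Sum.inl (w, 0) →
      s(a, D.mate a) ∈ D.edges.erase s(Sum.inl (v, 0), Sum.inl (w, 0)) := by
    intro a ha hb
    refine Finset.mem_erase.2 ⟨?_, D.mk_mem_edges a⟩
    intro h
    have : a ∈ s((Sum.inl (v, 0) : Half D.n D.u), Sum.inl (w, 0)) := by
      rw [← h]; simp
    rw [Sym2.mem_iff] at this
    exact this.elim ha hb
  have hin : ∀ a, (∃ e ∈ D.edges.erase s(Sum.inl (v, 0), Sum.inl (w, 0)), a ∈ e) →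
      a ≠ Sum.inl (v, 0) ∧ a ≠ Sum.inl (w, 0) := by
    rintro a ⟨e, he, hae⟩
    have hE := D.eq_of_mem (Finset.mem_of_mem_erase he) hae
    have hne' := Finset.ne_of_mem_erase he
    constructor
    · rintro rfl
      rw [hm] at hE
      exact hne' hE
    · rintro rfl
      rw [← hm, D.mate_mate, hm] at hE
      exact hne' (hE.trans Sym2.eq_swap)
  have cv1 : (cyc v w : Equiv.Perm (Half D.n D.u))⁻¹ (Sum.inl (v, 1)) = Sum.inl (w, 1) := by
    rw [Equiv.Perm.inv_eq_iff_eq, cyc_w1]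
  have cv2 : (cyc v w : Equiv.Perm (Half D.n D.u))⁻¹ (Sum.inl (v, 2)) = Sum.inl (v, 1) := by
    rw [Equiv.Perm.inv_eq_iff_eq, cyc_v1 v w hvw]
  have cw1 : (cyc v w : Equiv.Perm (Half D.n D.u))⁻¹ (Sum.inl (w, 1)) = Sum.inl (v, 2) := by
    rw [Equiv.Perm.inv_eq_iff_eq, cyc_v2 v w hvw]
  have co : ∀ h : Half D.n D.u, h ≠ Sum.inl (v, 1) → h ≠ Sum.inl (v, 2) → h ≠ Sum.inl (w, 1) →
      (cyc v w : Equiv.Perm (Half D.n D.u))⁻¹ h = h := by
    intro h a b c
    rw [Equiv.Perm.inv_eq_iff_eq, cyc_other v w h a b c]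
  have ai : ∀ a, τ (τ⁻¹ a) = a := fun a => τ.apply_symm_apply a
  have ia : ∀ a, τ⁻¹ (τ a) = a := fun a => τ.symm_apply_apply a
  unfold ee
  refine prod_flip2 D _ (Finset.erase_subset _ _) ν hν _ _ (τ⁻¹ (Sum.inl (v, 1)))
    (τ⁻¹ (Sum.inl (w, 2))) ?_ ?_ ?_ ?_ ?_ ?_
  · intro h
    have := τ⁻¹.injective h
    simp at this
  · refine hne _ ?_ ?_
    · rw [Ne, Equiv.Perm.inv_eq_iff_eq, h1]; simp
    · rw [Ne, Equiv.Perm.inv_eq_iff_eq, h2]; simp
  · refine hne _ ?_ ?_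
    · rw [Ne, Equiv.Perm.inv_eq_iff_eq, h1]; simp
    · rw [Ne, Equiv.Perm.inv_eq_iff_eq, h2]; simp
  · simp only [Function.comp, Equiv.Perm.coe_mul, ai]
    rw [cv1]
    simp [lab, ihxK, tht, hvw.symm]
  · simp only [Function.comp, Equiv.Perm.coe_mul, ai]
    rw [co _ (by simp) (by simp [hvw.symm]) (by simp)]
    simp [lab, ihxK, tht, hvw.symm, k2]
  · intro d hd1 hd2 hd
    obtain ⟨hd3, hd4⟩ := hin d hd
    simp only [Function.comp, Equiv.Perm.coe_mul]
    have e1 : τ d ≠ Sum.inl (v, 1) := fun h => hd1 (by rw [← h, ia])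
    have e2 : τ d ≠ Sum.inl (w, 2) := fun h => hd2 (by rw [← h, ia])
    have e3 : τ d ≠ Sum.inl (v, 0) := fun h => hd3 (τ.injective (h.trans h1.symm))
    have e4 : τ d ≠ Sum.inl (w, 0) := fun h => hd4 (τ.injective (h.trans h2.symm))
    generalize τ d = g at e1 e2 e3 e4
    by_cases g1 : g = Sum.inl (v, 2)
    · subst g1
      rw [cv2]
      simp [lab, ihxK]
    by_cases g2 : g = Sum.inl (w, 1)
    · subst g2
      rw [cw1]
      simp [lab, ihxK, k1]
    rw [co g e1 g1 g2]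
    rcases g with ⟨z, i⟩ | l
    · have hz : z ≠ v := by
        rintro rfl
        fin_cases i
        · exact e3 rfl
        · exact e1 rfl
        · exact g1 rfl
      have hz' : z ≠ w := by
        rintro rfl
        fin_cases i
        · exact e4 rfl
        · exact g2 rfl
        · exact e2 rfl
      simp [lab, ihxK, hz, hz']
    · simp [lab, ihxK]

lemma aa_eq_bb (ν : I → I) (hν : Function.Involutive ν) (x : I → ℤ) (D : Graph)
    (v w : Fin D.n) (hvw : v ≠ w) (hm : D.mate (Sum.inl (v, 0)) = Sum.inl (w, 0))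
    (τ : Equiv.Perm (Half D.n D.u)) (h1 : τ (Sum.inl (v, 0)) = Sum.inl (v, 0))
    (h2 : τ (Sum.inl (w, 0)) = Sum.inl (w, 0)) :
    aa ν hν x D v w τ = bb ν hν x D v w ((cyc v w)⁻¹ * τ) := by
  unfold aa bb
  rw [← Finset.sum_filter, ← Finset.sum_filter]
  refine Finset.sum_nbij' (ihxK ν v w) (ihxK' ν v w) ?_ ?_ ?_ ?_ ?_
  · intro k hk
    simp only [Finset.mem_filter, Finset.mem_univ, true_and] at hk ⊢
    exact ihxK_SS hν v w hvw k hk
  · intro k hk
    simp only [Finset.mem_filter, Finset.mem_univ, true_and] at hk ⊢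
    exact ihxK'_TT v w hvw k hk
  · intro k hk
    simp only [Finset.mem_filter, Finset.mem_univ, true_and] at hk
    exact ihx_left hν v w hvw k hk
  · intro k hk
    simp only [Finset.mem_filter, Finset.mem_univ, true_and] at hk
    exact ihx_right hν v w hvw k hk
  · intro k hk
    simp only [Finset.mem_filter, Finset.mem_univ, true_and] at hk
    rw [ee_ihx ν hν D v w hvw hm τ h1 h2 k hk]
    congr 1

theorem wt_ihx (ν : I → I) (hν : Function.Involutive ν) (x : I → ℤ) (D : Graph)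
    (v w : Fin D.n) (hvw : v ≠ w) (hm : D.mate (Sum.inl (v, 0)) = Sum.inl (w, 0)) :
    wt ν hν x D + wt ν hν x (D.conj (cyc v w)) + wt ν hν x (D.conj (cyc v w * cyc v w)) = 0 := by
  have hc0 : (cyc v w : Equiv.Perm (Half D.n D.u)) (Sum.inl (v, 0)) = Sum.inl (v, 0) :=
    cyc_other v w _ (by simp) (by simp) (by simp)
  have hc0' : (cyc v w : Equiv.Perm (Half D.n D.u)) (Sum.inl (w, 0)) = Sum.inl (w, 0) :=
    cyc_other v w _ (by simp) (by simp) (by simp)
  have e0 : wt ν hν x D = wt ν hν x (D.conj 1) := rfl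
  rw [e0, wt_conj_eq ν hν x D v w hm 1 rfl rfl, wt_conj_eq ν hν x D v w hm _ hc0 hc0',
    wt_conj_eq ν hν x D v w hm (cyc v w * cyc v w) (by simp [hc0]) (by simp [hc0']),
    aa_eq_bb ν hν x D v w hvw hm 1 rfl rfl, aa_eq_bb ν hν x D v w hvw hm _ hc0 hc0',
    aa_eq_bb ν hν x D v w hvw hm (cyc v w * cyc v w) (by simp [hc0]) (by simp [hc0'])]
  have h1 : (cyc v w : Equiv.Perm (Half D.n D.u))⁻¹ * 1 = cyc v w * cyc v w := by
    rw [mul_one, inv_eq_iff_mul_eq_one, cyc_cube v w hvw]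
  have h2 : (cyc v w : Equiv.Perm (Half D.n D.u))⁻¹ * cyc v w = 1 := inv_mul_cancel _
  have h3 : (cyc v w : Equiv.Perm (Half D.n D.u))⁻¹ * (cyc v w * cyc v w) = cyc v w := by
    rw [← mul_assoc, inv_mul_cancel, one_mul]
  rw [h1, h2, h3]
  ring

end Pool.Agent.H802R3.Vas
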