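import Pool.Agent.H802R3.Vas.Ihx

/-!
# Adding a leg to a graph
-/

set_option autoImplicit false

namespace Pool.Agent.H802R3.Vas

open Finset

variable {I : Type} [Fintype I] [DecidableEq I]

/-- the old half-edges -/
def emb {n u : ℕ} : Half n u → Half (n + 1) (u + 1)
  | Sum.inl (v, i) => Sum.inl (Fin.castSucc v, i)
  | Sum.inr l => Sum.inr (Fin.castSucc l)

/-- the half-edges at the new trivalent vertex -/
def nw {n u : ℕ} (i : Fin 3) : Half (n + 1) (u + 1) := Sum.inl (Fin.last n, i)

/-- the half-edge at the new univalent vertex -/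
def lf {n u : ℕ} : Half (n + 1) (u + 1) := Sum.inr (Fin.last u)

/-- functions by cases -/
def hcase {α : Type} {n u : ℕ} (f : Half n u → α) (g : Fin 3 → α) (l : α) :
    Half (n + 1) (u + 1) → α
  | Sum.inl (v, i) => Fin.lastCases (motive := fun _ => α) (g i) (fun v' => f (Sum.inl (v', i))) v
  | Sum.inr j => Fin.lastCases (motive := fun _ => α) l (fun j' => f (Sum.inr j')) j

@[simp] lemma hcase_emb {α : Type} {n u : ℕ} (f : Half n u → α) (g : Fin 3 → α) (l : α)
    (a : Half n u) : hcase f g l (emb a) = f a := by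
  rcases a with ⟨v, i⟩ | j <;> simp [hcase, emb]

@[simp] lemma hcase_nw {α : Type} {n u : ℕ} (f : Half n u → α) (g : Fin 3 → α) (l : α)
    (i : Fin 3) : hcase f g l (nw i) = g i := by
  simp [hcase, nw]

@[simp] lemma hcase_lf {α : Type} {n u : ℕ} (f : Half n u → α) (g : Fin 3 → α) (l : α) :
    hcase f g l (lf : Half (n + 1) (u + 1)) = l := by
  simp [hcase, lf]

lemma half_cases {n u : ℕ} {P : Half (n + 1) (u + 1) → Prop} (h1 : ∀ a, P (emb a))
    (h2 : ∀ i, P (nw i)) (h3 : P lf) (h : Half (n + 1) (u + 1)) : P h := by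
  rcases h with ⟨v, i⟩ | j
  · refine Fin.lastCases ?_ (fun v' => ?_) v
    · exact h2 i
    · exact h1 (Sum.inl (v', i))
  · refine Fin.lastCases ?_ (fun v' => ?_) j
    · exact h3
    · exact h1 (Sum.inr v')

lemma emb_injective {n u : ℕ} : Function.Injective (emb : Half n u → Half (n + 1) (u + 1)) := by
  rintro (⟨v, i⟩ | l) (⟨w, j⟩ | m) h <;> simp [emb] at h ⊢
  · exact h
  · exact h

@[simp] lemma emb_inj {n u : ℕ} (a b : Half n u) : emb a = emb b ↔ a = b := emb_injective.eq_iff

@[simp] lemma emb_ne_nw {n u : ℕ} (a : Half n u) (i : Fin 3) : emb a ≠ nw i := by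
  rcases a with ⟨v, j⟩ | l
  · simp only [emb, nw, ne_eq, Sum.inl.injEq, Prod.mk.injEq, not_and]
    intro h
    exact absurd h (Fin.castSucc_lt_last v).ne
  · simp [emb, nw]

@[simp] lemma nw_ne_emb {n u : ℕ} (a : Half n u) (i : Fin 3) : nw i ≠ emb a := (emb_ne_nw a i).symm

@[simp] lemma emb_ne_lf {n u : ℕ} (a : Half n u) : emb a ≠ lf := by
  rcases a with ⟨v, j⟩ | l
  · simp [emb, lf]
  · simp only [emb, lf, ne_eq, Sum.inr.injEq]
    exact (Fin.castSucc_lt_last l).ne

@[simp] lemma lf_ne_emb {n u : ℕ} (a : Half n u) : lf ≠ emb a := (emb_ne_lf a).symm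

@[simp] lemma nw_ne_lf {n u : ℕ} (i : Fin 3) : (nw i : Half (n + 1) (u + 1)) ≠ lf := by
  simp [nw, lf]

@[simp] lemma lf_ne_nw {n u : ℕ} (i : Fin 3) : (lf : Half (n + 1) (u + 1)) ≠ nw i := by
  simp [nw, lf]

@[simp] lemma nw_inj {n u : ℕ} (i j : Fin 3) : (nw i : Half (n + 1) (u + 1)) = nw j ↔ i = j := by
  simp [nw]

/-- the pairing of the graph with one more leg, attached next to `h` -/
def legMate (D : Graph) (h : Half D.n D.u) : Half (D.n + 1) (D.u + 1) → Half (D.n + 1) (D.u + 1) :=
  hcase (fun a => if a = h then nw 0 else if a = D.mate h then nw 1 else emb (D.mate a))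
    ![emb h, emb (D.mate h), lf] (nw 2)

lemma legMate_h (D : Graph) (h : Half D.n D.u) : legMate D h (emb h) = nw 0 := by
  simp [legMate]

lemma legMate_mh (D : Graph) (h : Half D.n D.u) : legMate D h (emb (D.mate h)) = nw 1 := by
  simp [legMate, D.mate_ne h]

lemma legMate_o (D : Graph) (h a : Half D.n D.u) (h1 : a ≠ h) (h2 : a ≠ D.mate h) :
    legMate D h (emb a) = emb (D.mate a) := by
  simp [legMate, h1, h2]

lemma legMate_0 (D : Graph) (h : Half D.n D.u) : legMate D h (nw 0) = emb h := by
  simp [legMate]

lemma legMate_1 (D : Graph) (h : Half D.n D.u) : legMate D h (nw 1) = emb (D.mate h) := by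
  simp [legMate]

lemma legMate_2 (D : Graph) (h : Half D.n D.u) : legMate D h (nw 2) = lf := by
  simp [legMate]

lemma legMate_lf (D : Graph) (h : Half D.n D.u) : legMate D h lf = nw 2 := by
  simp [legMate]

/-- The graph `D` with one more leg, attached to the edge `{h, mate h}`. -/
def addLeg (D : Graph) (h : Half D.n D.u) : Graph where
  n := D.n + 1
  u := D.u + 1
  mate := legMate D h
  mate_mate := by
    intro a
    refine half_cases (P := fun a => legMate D h (legMate D h a) = a) ?_ ?_ ?_ a
    · intro a
      by_cases h1 : a = h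
      · subst h1; rw [legMate_h, legMate_0]
      by_cases h2 : a = D.mate h
      · subst h2; rw [legMate_mh, legMate_1]
      have h3 : D.mate a ≠ h := by rintro rfl; exact h2 (D.mate_mate a).symm
      have h4 : D.mate a ≠ D.mate h := by
        intro e; apply h1; rw [← D.mate_mate a, e, D.mate_mate]
      rw [legMate_o D h a h1 h2, legMate_o D h _ h3 h4, D.mate_mate]
    · intro i
      fin_cases i
      · exact (congrArg _ (legMate_0 D h)).trans (legMate_h D h)
      · exact (congrArg _ (legMate_1 D h)).trans (legMate_mh D h)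
      · exact (congrArg _ (legMate_2 D h)).trans (legMate_lf D h)
    · rw [legMate_lf, legMate_2]
  mate_ne := by
    intro a
    refine half_cases (P := fun a => legMate D h a ≠ a) ?_ ?_ ?_ a
    · intro a
      by_cases h1 : a = h
      · subst h1; rw [legMate_h]; simp
      by_cases h2 : a = D.mate h
      · subst h2; rw [legMate_mh]; simp
      rw [legMate_o D h a h1 h2]
      simp [D.mate_ne a]
    · intro i
      fin_cases i
      · exact fun e => emb_ne_nw h 0 ((legMate_0 D h).symm.trans e)
      · exact fun e => emb_ne_nw _ 1 ((legMate_1 D h).symm.trans e)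
      · exact fun e => lf_ne_nw 2 ((legMate_2 D h).symm.trans e)
    · rw [legMate_lf]; simp

/-- the edges of `addLeg D h` -/
lemma edges_addLeg (D : Graph) (h : Half D.n D.u) :
    edgesOf (legMate D h) = insert s(emb h, nw 0) (insert s(nw 1, emb (D.mate h))
      (insert s(nw 2, lf) ((D.edges.erase s(h, D.mate h)).map
        ⟨Sym2.map emb, Sym2.map.injective emb_injective⟩))) := by
  ext e
  simp only [Finset.mem_insert, Finset.mem_map, Finset.mem_erase, Function.Embedding.coeFn_mk,
    Graph.mem_edges, mem_edgesOf]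
  constructor
  · rintro ⟨a, rfl⟩
    revert a
    refine half_cases ?_ ?_ ?_
    · intro a
      by_cases h1 : a = h
      · subst h1
        left
        exact congrArg (fun t => s(emb a, t)) (legMate_h D a)
      by_cases h2 : a = D.mate h
      · subst h2
        right; left
        exact (congrArg (fun t => s(emb (D.mate h), t)) (legMate_mh D h)).trans Sym2.eq_swap
      right; right; right
      refine ⟨s(a, D.mate a), ⟨?_, a, rfl⟩, ?_⟩
      · intro e
        have : a ∈ s(h, D.mate h) := by rw [← e]; simp
        rw [Sym2.mem_iff] at this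
        exact this.elim h1 h2
      · exact (congrArg (fun t => s(emb a, t)) (legMate_o D h a h1 h2)).symm
    · intro i
      fin_cases i
      · left
        exact (congrArg (fun t => s(nw 0, t)) (legMate_0 D h)).trans Sym2.eq_swap
      · right; left
        exact congrArg (fun t => s(nw 1, t)) (legMate_1 D h)
      · right; right; left
        exact congrArg (fun t => s(nw 2, t)) (legMate_2 D h)
    · right; right; left
      exact (congrArg (fun t => s(lf, t)) (legMate_lf D h)).trans Sym2.eq_swap
  · rintro (rfl | rfl | rfl | ⟨e', ⟨h1, a, rfl⟩, rfl⟩)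
    · exact ⟨emb h, congrArg (fun t => s(emb h, t)) (legMate_h D h)⟩
    · exact ⟨nw 1, congrArg (fun t => s(nw 1, t)) (legMate_1 D h)⟩
    · exact ⟨nw 2, congrArg (fun t => s(nw 2, t)) (legMate_2 D h)⟩
    · refine ⟨emb a, ?_⟩
      have h2 : a ≠ h := by rintro rfl; exact h1 rfl
      have h3 : a ≠ D.mate h := by
        rintro rfl
        apply h1
        rw [D.mate_mate]
        exact Sym2.eq_swap
      exact congrArg (fun t => s(emb a, t)) (legMate_o D h a h2 h3)

omit [Fintype I] in
lemma prod_addLeg (ν : I → I) (hν : Function.Involutive ν) (D : Graph) (h : Half D.n D.u)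
    (l : Half (D.n + 1) (D.u + 1) → I × I) :
    ∏ e ∈ edgesOf (legMate D h), kedge ν hν l e =
      kap ν (l (emb h)) (l (nw 0)) * (kap ν (l (nw 1)) (l (emb (D.mate h))) *
        (kap ν (l (nw 2)) (l lf) *
          ∏ e ∈ D.edges.erase s(h, D.mate h), kedge ν hν (l ∘ emb) e)) := by
  rw [edges_addLeg, Finset.prod_insert, Finset.prod_insert, Finset.prod_insert, Finset.prod_map]
  · simp only [kedge_mk]
    congr 1
    congr 1
    congr 1
    refine Finset.prod_congr rfl fun e _ => ?_
    exact kedge_map ν hν l emb e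
  · simp only [Finset.mem_map, Function.Embedding.coeFn_mk, not_exists, not_and]
    intro e _
    induction e with
    | _ a b => simp [Sym2.map_mk]
  · simp only [Finset.mem_insert, Finset.mem_map, Function.Embedding.coeFn_mk, not_or, not_exists,
      not_and]
    refine ⟨by simp, ?_⟩
    intro e _
    induction e with
    | _ a b => simp [Sym2.map_mk]
  · simp only [Finset.mem_insert, Finset.mem_map, Function.Embedding.coeFn_mk, not_or, not_exists,
      not_and]
    refine ⟨by simp, by simp, ?_⟩
    intro e _
    induction e with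
    | _ a b => simp [Sym2.map_mk]

end Pool.Agent.H802R3.Vas
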