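import Pool.Agent.H802R3.Vas.Leg

/-!
# The state sum and legs
-/

set_option autoImplicit false

namespace Pool.Agent.H802R3.Vas

open Finset

variable {I : Type} [Fintype I] [DecidableEq I]

lemma sum_kap (ν : I → I) (hν : Function.Involutive ν) (a : I × I) (G : I → I → ℤ) :
    ∑ p : I, ∑ q : I, kap ν a (p, q) * G p q = G a.2 a.1 - G (ν a.1) (ν a.2) := by
  have h1 : ∀ p q : I, kap ν a (p, q) * G p q =
      (if p = a.2 then (if q = a.1 then G p q else 0) else 0) -
      (if p = ν a.1 then (if q = ν a.2 then G p q else 0) else 0) := by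
    intro p q
    unfold kap
    have e1 : (a.1 = q ∧ a.2 = p) ↔ (p = a.2 ∧ q = a.1) := by
      constructor <;> rintro ⟨h, h'⟩ <;> exact ⟨h'.symm, h.symm⟩
    have e2 : (a.1 = ν p ∧ a.2 = ν q) ↔ (p = ν a.1 ∧ q = ν a.2) := by
      constructor
      · rintro ⟨h, h'⟩; rw [h, h', hν, hν]; exact ⟨rfl, rfl⟩
      · rintro ⟨h, h'⟩; rw [h, h', hν, hν]; exact ⟨rfl, rfl⟩
    simp only [e1, e2, ite_and]
    split_ifs <;> simp
  simp only [h1, Finset.sum_sub_distrib]
  simp [Finset.sum_ite_eq']

lemma sum_leaf (ν : I → I) (hν : Function.Involutive ν) (x : I → ℤ) (hx : ∀ i, x (ν i) = - x i)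
    (p r : I) : ∑ l : I, x l * kap ν (r, p) (l, l) = if r = p then 2 * x p else 0 := by
  have h1 : ∀ l : I, x l * kap ν (r, p) (l, l) =
      (if l = r then (if r = p then x p else 0) else 0) -
      (if l = ν r then (if r = p then - x p else 0) else 0) := by
    intro l
    unfold kap
    have e1 : (r = l ∧ p = l) ↔ (l = r ∧ r = p) := by
      constructor
      · rintro ⟨rfl, rfl⟩; exact ⟨rfl, rfl⟩
      · rintro ⟨rfl, rfl⟩; exact ⟨rfl, rfl⟩
    have e2 : (r = ν l ∧ p = ν l) ↔ (l = ν r ∧ r = p) := by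
      constructor
      · rintro ⟨h, h'⟩; rw [h, h', hν]; exact ⟨rfl, rfl⟩
      · rintro ⟨h, h'⟩; rw [h, ← h', hν]; exact ⟨rfl, rfl⟩
    simp only [e1, e2, ite_and]
    by_cases a : l = r
    · subst a
      by_cases b : l = p
      · subst b
        by_cases c : l = ν l
        · have := hx l
          rw [← c] at this
          simp only [← c, if_true]
          linarith
        · simp [c]
      · simp [b]
    · by_cases b : r = p
      · subst b
        by_cases c : l = ν r
        · subst c; simp [a, hx]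
        · simp [a, c]
      · simp [b]
  simp only [h1, Finset.sum_sub_distrib, Finset.sum_ite_eq', Finset.mem_univ, if_true]
  split_ifs <;> ring

lemma sum_new (ν : I → I) (hν : Function.Involutive ν) (x : I → ℤ) (hx : ∀ i, x (ν i) = - x i)
    (a b : I × I) (R : ℤ) :
    ∑ p : I, ∑ q : I, ∑ r : I, ∑ l : I,
      x l * (kap ν a (p, q) * (kap ν (q, r) b * (kap ν (r, p) (l, l) * R))) =
      (2 * (x a.2 - x a.1)) * (kap ν a b * R) := by
  have h1 : ∀ p q r : I, ∑ l : I,
      x l * (kap ν a (p, q) * (kap ν (q, r) b * (kap ν (r, p) (l, l) * R))) =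
      if r = p then kap ν a (p, q) * (kap ν (q, p) b * (2 * x p) * R) else 0 := by
    intro p q r
    have : ∀ l : I, x l * (kap ν a (p, q) * (kap ν (q, r) b * (kap ν (r, p) (l, l) * R))) =
        (x l * kap ν (r, p) (l, l)) * (kap ν a (p, q) * (kap ν (q, r) b * R)) := by
      intro l; ring
    simp only [this]
    rw [← Finset.sum_mul, sum_leaf ν hν x hx]
    split_ifs with h
    · subst h; ring
    · ring
  simp only [h1, Finset.sum_ite_eq', Finset.mem_univ, if_true]
  rw [sum_kap ν hν a (fun p q => kap ν (q, p) b * (2 * x p) * R)]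
  have h2 : kap ν (ν a.2, ν a.1) b = - kap ν a b := kap_tht hν a b
  have h3 : kap ν (a.1, a.2) b = kap ν a b := rfl
  rw [h2, h3, hx]
  ring

/-- the equivalence between colourings of the new and of the old half-edges -/
def colEquiv (n u : ℕ) : (Half (n + 1) (u + 1) → I) ≃ (Half n u → I) × (I × I × I × I) where
  toFun k := (k ∘ emb, (k (nw 0), k (nw 1), k (nw 2), k lf))
  invFun p := hcase p.1 ![p.2.1, p.2.2.1, p.2.2.2.1] p.2.2.2.2
  left_inv := by
    intro k
    funext h
    refine half_cases (P := fun h => hcase (k ∘ emb) ![k (nw 0), k (nw 1), k (nw 2)] (k lf) h = k h)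
      ?_ ?_ ?_ h
    · intro a; simp
    · intro i; fin_cases i <;> simp
    · simp
  right_inv := by
    rintro ⟨k, p, q, r, l⟩
    refine Prod.ext ?_ ?_
    · funext a; simp
    · simp

omit [Fintype I] [DecidableEq I] in
lemma lab_hcase_emb {n u : ℕ} (k : Half n u → I) (g : Fin 3 → I) (l : I) (a : Half n u) :
    lab (hcase k g l) (emb a) = lab k a := by
  rcases a with ⟨v, i⟩ | j
  · show (hcase k g l (emb (Sum.inl (v, i))), hcase k g l (emb (Sum.inl (v, i + 1)))) = _
    rw [hcase_emb, hcase_emb]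
    rfl
  · show (hcase k g l (emb (Sum.inr j)), hcase k g l (emb (Sum.inr j))) = _
    rw [hcase_emb]
    rfl

omit [Fintype I] [DecidableEq I] in
lemma lab_hcase_nw {n u : ℕ} (k : Half n u → I) (g : Fin 3 → I) (l : I) (i : Fin 3) :
    lab (hcase k g l) (nw i) = (g i, g (i + 1)) := by
  show (hcase k g l (nw i), hcase k g l (nw (i + 1))) = _
  rw [hcase_nw, hcase_nw]

omit [Fintype I] [DecidableEq I] in
lemma lab_hcase_lf {n u : ℕ} (k : Half n u → I) (g : Fin 3 → I) (l : I) :
    lab (hcase k g l : Half (n + 1) (u + 1) → I) lf = (l, l) := by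
  show (hcase k g l (lf : Half (n + 1) (u + 1)), hcase k g l (lf : Half (n + 1) (u + 1))) = _
  rw [hcase_lf]

/-- the state sum with an additional function of the colours -/
def wtF (ν : I → I) (hν : Function.Involutive ν) (x : I → ℤ) (D : Graph)
    (G : (Half D.n D.u → I) → ℤ) : ℤ :=
  ∑ k : Half D.n D.u → I, (∏ l : Fin D.u, x (k (Sum.inr l))) *
    (∏ e ∈ edgesOf D.mate, kedge ν hν (lab k) e) * G k

lemma wtF_one (ν : I → I) (hν : Function.Involutive ν) (x : I → ℤ) (D : Graph) :
    wtF ν hν x D (fun _ => 1) = wt ν hν x D := by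
  simp [wtF, wt, Graph.edges]

lemma wtF_addLeg (ν : I → I) (hν : Function.Involutive ν) (x : I → ℤ)
    (hx : ∀ i, x (ν i) = - x i) (D : Graph) (h : Half D.n D.u) (G : (Half D.n D.u → I) → ℤ) :
    wtF ν hν x (addLeg D h) (fun k => G (k ∘ emb)) =
      wtF ν hν x D (fun k => (2 * (x (lab k h).2 - x (lab k h).1)) * G k) := by
  have e1 : wtF ν hν x (addLeg D h) (fun k => G (k ∘ emb)) =
      ∑ k : Half (D.n + 1) (D.u + 1) → I, (∏ l : Fin (D.u + 1), x (k (Sum.inr l))) *
    (∏ e ∈ edgesOf (legMate D h), kedge ν hν (lab k) e) * G (k ∘ emb) := rfl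
  rw [e1, ← Equiv.sum_comp (colEquiv (I := I) D.n D.u).symm, Fintype.sum_prod_type]
  unfold wtF
  refine Finset.sum_congr rfl fun k _ => ?_
  have e2 : ∀ (p q r l : I), (colEquiv (I := I) D.n D.u).symm (k, p, q, r, l) =
      hcase k ![p, q, r] l := fun _ _ _ _ => rfl
  simp only [Fintype.sum_prod_type, e2]
  have e3 : ∀ (p q r l : I), (hcase k ![p, q, r] l : Half (D.n + 1) (D.u + 1) → I) ∘ emb = k := by
    intro p q r l
    funext a
    simp
  have e4 : ∀ (p q r l : I), (∏ j : Fin (D.u + 1),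
      x ((hcase k ![p, q, r] l : Half (D.n + 1) (D.u + 1) → I) (Sum.inr j))) =
      (∏ j : Fin D.u, x (k (Sum.inr j))) * x l := by
    intro p q r l
    rw [Fin.prod_univ_castSucc]
    congr 1
    · refine Finset.prod_congr rfl fun j _ => ?_
      exact congrArg x (hcase_emb k ![p, q, r] l (Sum.inr j))
    · exact congrArg x (hcase_lf k ![p, q, r] l)
  have e5 : ∀ (p q r l : I), (∏ e ∈ edgesOf (legMate D h),
      kedge ν hν (lab (hcase k ![p, q, r] l : Half (D.n + 1) (D.u + 1) → I)) e) =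
      kap ν (lab k h) (p, q) * (kap ν (q, r) (lab k (D.mate h)) * (kap ν (r, p) (l, l) *
        ∏ e ∈ D.edges.erase s(h, D.mate h), kedge ν hν (lab k) e)) := by
    intro p q r l
    rw [prod_addLeg, lab_hcase_emb, lab_hcase_emb, lab_hcase_nw, lab_hcase_nw, lab_hcase_nw,
      lab_hcase_lf]
    have : (lab (hcase k ![p, q, r] l : Half (D.n + 1) (D.u + 1) → I)) ∘ emb = lab k := by
      funext a
      exact lab_hcase_emb k _ l a
    rw [this]
    rfl
  simp only [e3, e4, e5]
  have e6 : ∀ (p q r l : I), (∏ j : Fin D.u, x (k (Sum.inr j))) * x l *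
      (kap ν (lab k h) (p, q) * (kap ν (q, r) (lab k (D.mate h)) * (kap ν (r, p) (l, l) *
        ∏ e ∈ D.edges.erase s(h, D.mate h), kedge ν hν (lab k) e))) * G k =
      ((∏ j : Fin D.u, x (k (Sum.inr j))) * G k) * (x l *
      (kap ν (lab k h) (p, q) * (kap ν (q, r) (lab k (D.mate h)) * (kap ν (r, p) (l, l) *
        ∏ e ∈ D.edges.erase s(h, D.mate h), kedge ν hν (lab k) e)))) := by
    intro p q r l; ring
  simp only [e6, ← Finset.mul_sum]
  rw [sum_new ν hν x hx]
  have e7 : ∏ e ∈ edgesOf D.mate, kedge ν hν (lab k) e =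
      kap ν (lab k h) (lab k (D.mate h)) *
        ∏ e ∈ D.edges.erase s(h, D.mate h), kedge ν hν (lab k) e :=
    (Finset.mul_prod_erase D.edges (fun e => kedge ν hν (lab k) e) (D.mk_mem_edges h)).symm
  rw [e7]
  ring

end Pool.Agent.H802R3.Vas
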