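import Pool.Agent.H802R3.Vas.Sol

/-!
# Colours with multiplicities
-/

set_option autoImplicit false

namespace Pool.Agent.H802R3.Vas

open Finset

/-- the colours: four classes `c` of signed colours, the class `c` with multiplicity `m c` -/
abbrev Pal (m : Fin 4 → ℕ) : Type := (c : Fin 4) × (Fin (m c) × Bool)

/-- the change of sign of a colour -/
def pneg {m : Fin 4 → ℕ} : Pal m → Pal m := fun p => ⟨p.1, (p.2.1, !p.2.2)⟩

lemma pneg_inv {m : Fin 4 → ℕ} : Function.Involutive (pneg : Pal m → Pal m) := by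
  rintro ⟨c, i, b⟩
  simp [pneg]

lemma pneg_ne {m : Fin 4 → ℕ} (p : Pal m) : pneg p ≠ p := by
  obtain ⟨c, i, b⟩ := p
  simp [pneg]

/-- the value of a class with a sign -/
def colv (p : Fin 4 × Bool) : ℤ := if p.2 then -((p.1 : ℕ) + 1) else (p.1 : ℕ) + 1

/-- the class of a colour -/
def pcl {m : Fin 4 → ℕ} (p : Pal m) : Fin 4 × Bool := (p.1, p.2.2)

/-- the value of a colour -/
def px {m : Fin 4 → ℕ} (p : Pal m) : ℤ := colv (pcl p)

lemma px_neg {m : Fin 4 → ℕ} (p : Pal m) : px (pneg p) = - px p := by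
  obtain ⟨c, i, b⟩ := p
  cases b <;> simp [px, pneg, pcl, colv]

/-- the values at the corners in terms of the classes of the free corners -/
def xv (r : List ℕ) (l : List (Fin 4 × Bool)) (u : ℕ) : ℤ :=
  (if r.getD u 0 % 2 = 0 then 1 else -1) * colv (l.getD (idx r u) (0, false))

lemma px_sg {m : Fin 4 → ℕ} (t : ℕ) (p : Pal m) :
    px (sg pneg t p) = (if t % 2 = 0 then 1 else -1) * px p := by
  unfold sg
  split_ifs
  · ring
  · rw [px_neg]; ring

lemma px_ext {m : Fin 4 → ℕ} (r : List ℕ) (hr : Good r) (c : Fin (roots r).length → Pal m)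
    (u : ℕ) (hu : u < 18) :
    px (ext pneg r hr c (dec u)) = xv r (List.ofFn (pcl ∘ c)) u := by
  rw [ext_dec pneg r hr c u hu, px_sg]
  unfold xv
  congr 1
  have h : idx r u < (List.ofFn (pcl ∘ c)).length := by
    rw [List.length_ofFn]; exact idx_lt hr hu
  rw [List.getD_eq_getElem _ _ h, List.getElem_ofFn]
  rfl

/-- the product over the legs -/
def gz (r : List ℕ) (ch : List (ℕ × ℕ)) (l : List (Fin 4 × Bool)) : ℤ :=
  (ch.map fun p => (2 * (xv r l (nxt p.1) - xv r l p.1)) ^ p.2).prod

/-- the list of half-edges at which legs are attached -/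
def legs (ch : List (ℕ × ℕ)) : List (Half 6 0) := ch.flatMap fun p => List.replicate p.2 (dec p.1)

lemma prod_legs {I : Type} (x : I → ℤ) (ch : List (ℕ × ℕ)) (hch : ∀ p ∈ ch, p.1 < 18)
    (k : Half 6 0 → I) :
    ((legs ch).map fun h => 2 * (x (lab k h).2 - x (lab k h).1)).prod =
      (ch.map fun p => (2 * (x (k (dec (nxt p.1))) - x (k (dec p.1)))) ^ p.2).prod := by
  induction ch with
  | nil => rfl
  | cons p ch ih =>
    have h1 : legs (p :: ch) = List.replicate p.2 (dec p.1) ++ legs ch := rfl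
    rw [h1, List.map_append, List.prod_append, List.map_cons, List.prod_cons,
      ih (fun q hq => hch q (by simp [hq])), List.map_replicate, List.prod_replicate,
      lab_dec k p.1 (hch p (by simp))]

lemma prod_ext {m : Fin 4 → ℕ} (r : List ℕ) (hr : Good r) (ch : List (ℕ × ℕ))
    (hch : ∀ p ∈ ch, p.1 < 18) (c : Fin (roots r).length → Pal m) :
    (ch.map fun p => (2 * (px (ext pneg r hr c (dec (nxt p.1))) -
      px (ext pneg r hr c (dec p.1)))) ^ p.2).prod = gz r ch (List.ofFn (pcl ∘ c)) := by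
  unfold gz
  congr 1
  refine List.map_congr_left fun p hp => ?_
  rw [px_ext r hr c _ (nxt_lt _ (hch p hp)), px_ext r hr c _ (hch p hp)]

/-- summation over `n` classes, as a polynomial in the multiplicities -/
noncomputable def polyL : ℕ → (List (Fin 4 × Bool) → ℤ) → MvPolynomial (Fin 4) ℤ
  | 0, g => MvPolynomial.C (g [])
  | n + 1, g => ∑ c : Fin 4, MvPolynomial.X c *
      (polyL n (fun l => g ((c, false) :: l)) + polyL n (fun l => g ((c, true) :: l)))

lemma sum_pal (m : Fin 4 → ℕ) (f : Fin 4 × Bool → ℤ) :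
    ∑ p : Pal m, f (pcl p) = ∑ c : Fin 4, (m c : ℤ) * (f (c, false) + f (c, true)) := by
  rw [Fintype.sum_sigma]
  refine Finset.sum_congr rfl fun c _ => ?_
  rw [Fintype.sum_prod_type]
  simp [pcl, mul_add, add_comm]

lemma eval_polyL (m : Fin 4 → ℕ) (n : ℕ) : ∀ g : List (Fin 4 × Bool) → ℤ,
    MvPolynomial.eval (fun c => (m c : ℤ)) (polyL n g) =
      ∑ c : Fin n → Pal m, g (List.ofFn (pcl ∘ c)) := by
  induction n with
  | zero =>
    intro g
    simp [polyL]
  | succ n ih =>
    intro g
    rw [← (Fin.consEquiv (fun _ : Fin (n + 1) => Pal m)).sum_comp, Fintype.sum_prod_type]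
    have h1 : ∀ (p : Pal m) (c : Fin n → Pal m),
        g (List.ofFn (pcl ∘ (Fin.consEquiv (fun _ : Fin (n + 1) => Pal m)) (p, c))) =
          g (pcl p :: List.ofFn (pcl ∘ c)) := by
      intro p c
      congr 1
      rw [List.ofFn_succ]
      simp [Fin.consEquiv, Function.comp_def]
    simp only [h1]
    rw [sum_pal m (fun q => ∑ c : Fin n → Pal m, g (q :: List.ofFn (pcl ∘ c)))]
    simp only [polyL, map_sum, map_mul, map_add, MvPolynomial.eval_X, ih]

/-- the coefficients of `polyL` -/
def coefL : ℕ → (Fin 4 → ℕ) → (List (Fin 4 × Bool) → ℤ) → ℤ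
  | 0, a, g => if a = 0 then g [] else 0
  | n + 1, a, g => ∑ c : Fin 4, if a c = 0 then 0 else
      coefL n (Function.update a c (a c - 1)) (fun l => g ((c, false) :: l)) +
      coefL n (Function.update a c (a c - 1)) (fun l => g ((c, true) :: l))

lemma coeff_polyL (n : ℕ) : ∀ (a : Fin 4 → ℕ) (g : List (Fin 4 × Bool) → ℤ),
    MvPolynomial.coeff (Finsupp.equivFunOnFinite.symm a) (polyL n g) = coefL n a g := by
  induction n with
  | zero =>
    intro a g
    simp only [polyL, coefL, MvPolynomial.coeff_C]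
    have : (0 = Finsupp.equivFunOnFinite.symm a) ↔ a = 0 := by
      rw [eq_comm, Equiv.symm_apply_eq]
      rfl
    simp only [this]
  | succ n ih =>
    intro a g
    simp only [polyL, coefL, MvPolynomial.coeff_sum]
    refine Finset.sum_congr rfl fun c _ => ?_
    rw [mul_comm, MvPolynomial.coeff_mul_X']
    have h1 : c ∈ (Finsupp.equivFunOnFinite.symm a).support ↔ a c ≠ 0 := by
      simp
    simp only [h1]
    by_cases h : a c = 0
    · simp [h]
    · rw [if_pos h, if_neg h]
      have h2 : Finsupp.equivFunOnFinite.symm a - Finsupp.single c 1 =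
          Finsupp.equivFunOnFinite.symm (Function.update a c (a c - 1)) := by
        ext d
        by_cases hd : d = c
        · subst hd; simp
        · simp [hd]
      rw [h2, MvPolynomial.coeff_add, ih, ih]

end Pool.Agent.H802R3.Vas
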