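import Pool.Agent.H802R3.Vas.Weight

/-!
# The state sum satisfies AS and IHX
-/

set_option autoImplicit false

namespace Pool.Agent.H802R3.Vas

open Finset

variable {I : Type} [Fintype I] [DecidableEq I]

lemma wt_conj (ν : I → I) (hν : Function.Involutive ν) (x : I → ℤ) (D : Graph)
    (σ : Equiv.Perm (Half D.n D.u)) :
    wt ν hν x (D.conj σ) = ∑ k : Half D.n D.u → I, (∏ l : Fin D.u, x (k (Sum.inr l))) *
      ∏ e ∈ D.edges, kedge ν hν (lab k ∘ σ) e := by
  unfold wt
  refine Finset.sum_congr rfl fun k _ => ?_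
  congr 1
  refine prod_edges_of_equiv D (D.conj σ) σ ?_ ν hν (lab k)
  intro h
  exact congrArg (fun t => σ (D.mate t)) (σ.symm_apply_apply h)

omit [Fintype I] in
lemma prod_flip3 (D : Graph) (ν : I → I) (hν : Function.Involutive ν)
    (l l' : Half D.n D.u → I × I) (a b c : Half D.n D.u) (hab : a ≠ b) (hac : a ≠ c) (hbc : b ≠ c)
    (ha : l' a = tht ν (l a)) (hb : l' b = tht ν (l b)) (hc : l' c = tht ν (l c))
    (h : ∀ d, d ≠ a → d ≠ b → d ≠ c → l' d = l d) :
    ∏ e ∈ D.edges, kedge ν hν l' e = - ∏ e ∈ D.edges, kedge ν hν l e := by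
  let l1 := Function.update l a (tht ν (l a))
  let l2 := Function.update l1 b (tht ν (l b))
  have e1 : ∏ e ∈ D.edges, kedge ν hν l1 e = - ∏ e ∈ D.edges, kedge ν hν l e := by
    refine prod_flip D _ subset_rfl ν hν l l1 a (D.mk_mem_edges a) (by simp [l1]) ?_
    intro d hd _
    simp [l1, hd]
  have e2 : ∏ e ∈ D.edges, kedge ν hν l2 e = - ∏ e ∈ D.edges, kedge ν hν l1 e := by
    refine prod_flip D _ subset_rfl ν hν l1 l2 b (D.mk_mem_edges b) ?_ ?_
    · simp [l2, l1, hab.symm]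
    · intro d hd _
      simp [l2, hd]
  have e3 : ∏ e ∈ D.edges, kedge ν hν l' e = - ∏ e ∈ D.edges, kedge ν hν l2 e := by
    refine prod_flip D _ subset_rfl ν hν l2 l' c (D.mk_mem_edges c) ?_ ?_
    · simp [l2, l1, hbc.symm, hac.symm, hc]
    · intro d hd _
      by_cases hda : d = a
      · subst hda; simp [l2, l1, hab, ha]
      by_cases hdb : d = b
      · subst hdb; simp [l2, hb]
      simp [l2, l1, hda, hdb, h d hda hdb hd]
  rw [e3, e2, e1]
  ring

omit [Fintype I] in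
lemma prod_flip2 (D : Graph) (S : Finset (Sym2 (Half D.n D.u))) (hS : S ⊆ D.edges)
    (ν : I → I) (hν : Function.Involutive ν)
    (l l' : Half D.n D.u → I × I) (a b : Half D.n D.u) (hab : a ≠ b)
    (haS : s(a, D.mate a) ∈ S) (hbS : s(b, D.mate b) ∈ S)
    (ha : l' a = tht ν (l a)) (hb : l' b = tht ν (l b))
    (h : ∀ d, d ≠ a → d ≠ b → (∃ e ∈ S, d ∈ e) → l' d = l d) :
    ∏ e ∈ S, kedge ν hν l' e = ∏ e ∈ S, kedge ν hν l e := by
  let l1 := Function.update l a (tht ν (l a))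
  have e1 : ∏ e ∈ S, kedge ν hν l1 e = - ∏ e ∈ S, kedge ν hν l e := by
    refine prod_flip D _ hS ν hν l l1 a haS (by simp [l1]) ?_
    intro d hd _
    simp [l1, hd]
  have e2 : ∏ e ∈ S, kedge ν hν l' e = - ∏ e ∈ S, kedge ν hν l1 e := by
    refine prod_flip D _ hS ν hν l1 l' b hbS ?_ ?_
    · simp [l1, hab.symm, hb]
    · intro d hd hde
      by_cases hda : d = a
      · subst hda; simp [l1, ha]
      simp [l1, hda, h d hda hd hde]
  rw [e2, e1, neg_neg]

/-- the change of colours at the three corners of `v` -/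
def flipK (ν : I → I) {n u : ℕ} (v : Fin n) (k : Half n u → I) : Half n u → I := fun h =>
  if h = Sum.inl (v, 0) then ν (k (Sum.inl (v, 1)))
  else if h = Sum.inl (v, 1) then ν (k (Sum.inl (v, 0)))
  else if h = Sum.inl (v, 2) then ν (k (Sum.inl (v, 2)))
  else k h

omit [Fintype I] [DecidableEq I] in
lemma flipK_inv {ν : I → I} (hν : Function.Involutive ν) {n u : ℕ} (v : Fin n) :
    Function.Involutive (flipK ν v : (Half n u → I) → (Half n u → I)) := by
  intro k
  funext h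
  unfold flipK
  by_cases h0 : h = Sum.inl (v, 0)
  · subst h0; simp [hν _]
  by_cases h1 : h = Sum.inl (v, 1)
  · subst h1; simp [hν _]
  by_cases h2 : h = Sum.inl (v, 2)
  · subst h2; simp [hν _]
  simp [h0, h1, h2]

lemma wt_flip (ν : I → I) (hν : Function.Involutive ν) (x : I → ℤ) (D : Graph) (v : Fin D.n) :
    wt ν hν x (D.flip v) = - wt ν hν x D := by
  unfold Graph.flip
  rw [wt_conj]
  unfold wt
  rw [← Finset.sum_neg_distrib]
  refine Fintype.sum_equiv (Function.Involutive.toPerm _ (flipK_inv hν v)) _ _ ?_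
  intro k
  rw [Function.Involutive.coe_toPerm, ← mul_neg]
  congr 1
  rw [prod_flip3 D ν hν (lab k ∘ Equiv.swap (Sum.inl (v, 1)) (Sum.inl (v, 2)))
    (lab (flipK ν v k)) (Sum.inl (v, 0)) (Sum.inl (v, 1)) (Sum.inl (v, 2)) (by simp) (by simp)
    (by simp), neg_neg]
  · simp [lab, flipK, tht, Equiv.swap_apply_of_ne_of_ne]
  · simp [lab, flipK, tht]
  · simp [lab, flipK, tht]
  · rintro (⟨w, i⟩ | l) h0 h1 h2
    · have hw : w ≠ v := by
        rintro rfl
        fin_cases i
        · exact h0 rfl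
        · exact h1 rfl
        · exact h2 rfl
      simp [lab, flipK, hw, Equiv.swap_apply_of_ne_of_ne]
    · simp [lab, flipK, Equiv.swap_apply_of_ne_of_ne]

/-- the change of colours used for IHX -/
def ihxK (ν : I → I) {n u : ℕ} (v w : Fin n) (k : Half n u → I) : Half n u → I := fun h =>
  if h = Sum.inl (v, 0) then k (Sum.inl (w, 2))
  else if h = Sum.inl (v, 1) then k (Sum.inl (v, 2))
  else if h = Sum.inl (v, 2) then k (Sum.inl (v, 0))
  else if h = Sum.inl (w, 0) then ν (k (Sum.inl (w, 2)))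
  else if h = Sum.inl (w, 1) then ν (k (Sum.inl (v, 2)))
  else if h = Sum.inl (w, 2) then ν (k (Sum.inl (v, 1)))
  else k h

/-- the inverse change of colours -/
def ihxK' (ν : I → I) {n u : ℕ} (v w : Fin n) (k : Half n u → I) : Half n u → I := fun h =>
  if h = Sum.inl (v, 0) then k (Sum.inl (v, 2))
  else if h = Sum.inl (v, 1) then ν (k (Sum.inl (w, 2)))
  else if h = Sum.inl (v, 2) then k (Sum.inl (v, 1))
  else if h = Sum.inl (w, 0) then ν (k (Sum.inl (w, 2)))
  else if h = Sum.inl (w, 1) then k (Sum.inl (v, 2))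
  else if h = Sum.inl (w, 2) then k (Sum.inl (v, 0))
  else k h

/-- the straight term of the edge between `v` and `w` -/
def SS {n u : ℕ} (v w : Fin n) (k : Half n u → I) : Prop :=
  k (Sum.inl (v, 0)) = k (Sum.inl (w, 1)) ∧ k (Sum.inl (v, 1)) = k (Sum.inl (w, 0))

/-- the twisted term of the edge between `v` and `w` -/
def TT (ν : I → I) {n u : ℕ} (v w : Fin n) (k : Half n u → I) : Prop :=
  k (Sum.inl (v, 0)) = ν (k (Sum.inl (w, 0))) ∧ k (Sum.inl (v, 1)) = ν (k (Sum.inl (w, 1)))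

instance {n u : ℕ} (v w : Fin n) (k : Half n u → I) : Decidable (SS v w k) := by
  unfold SS; infer_instance

instance (ν : I → I) {n u : ℕ} (v w : Fin n) (k : Half n u → I) : Decidable (TT ν v w k) := by
  unfold TT; infer_instance

lemma cyc_v1 {n u : ℕ} (v w : Fin n) (hvw : v ≠ w) :
    (cyc v w : Equiv.Perm (Half n u)) (Sum.inl (v, 1)) = Sum.inl (v, 2) := by
  simp [cyc, Equiv.swap_apply_of_ne_of_ne, hvw]

lemma cyc_v2 {n u : ℕ} (v w : Fin n) (hvw : v ≠ w) :
    (cyc v w : Equiv.Perm (Half n u)) (Sum.inl (v, 2)) = Sum.inl (w, 1) := by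
  simp [cyc, Equiv.swap_apply_of_ne_of_ne, hvw.symm]

lemma cyc_w1 {n u : ℕ} (v w : Fin n) :
    (cyc v w : Equiv.Perm (Half n u)) (Sum.inl (w, 1)) = Sum.inl (v, 1) := by
  simp [cyc]

lemma cyc_other {n u : ℕ} (v w : Fin n) (h : Half n u) (h1 : h ≠ Sum.inl (v, 1))
    (h2 : h ≠ Sum.inl (v, 2)) (h3 : h ≠ Sum.inl (w, 1)) :
    (cyc v w : Equiv.Perm (Half n u)) h = h := by
  simp [cyc, Equiv.swap_apply_of_ne_of_ne, h1, h2, h3]

end Pool.Agent.H802R3.Vas
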