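import Pool.Agent.H802R3.Vas.DataB

/-!
# Rows of the matrix
-/

set_option autoImplicit false

namespace Pool.Agent.H802R3.Vas

/-- data of the states -/
def sts0 : List (ℕ × ℕ × List (ℕ × ℕ × ℕ)) := [(2, 4, [(256, 16, T20)]),
  (3, 4, [(1, 16777216, T20)]), (3, 4, [(16, 268435456, T20)]), (3, 4, [(16, 268435456, T20)]),
  (3, 4, [(16, 16777216, T20)]), (4, 5, [(16, 268435456, T20)]), (5, 4, [(16, 256, T20)]), (5, 4,
  [(1, 16777216, T20)]), (5, 4, [(16777216, 268435456, T20)]), (5, 4, [(16, 268435456, T20)]), (5,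
  4, [(16, 268435456, T20)]), (6, 4, [(256, 16, T20)])]

lemma sts0_ok : rs1.map (sdat [(10, 20)]) = sts0 := by
  decide +kernel

/-- a row -/
def row0 : List ℕ := [350687, 597258, 51655, 786534, 464347, 40995, 216337, 58109,
  72188, 877301, 351628, 979830, 136412, 556939, 817134, 391599, 495209, 889616, 916060, 289720,
  338948, 609001, 305, 896698, 6271, 593832, 747131, 606740, 253661, 863884, 324434, 814063,
  293673, 112111, 835621, 90805, 967299, 237349, 947937]

lemma row0_ok : (alist.map fun a => stC a sts0) = row0 := by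
  decide +kernel

/-- data of the states -/
def sts1 : List (ℕ × ℕ × List (ℕ × ℕ × ℕ)) := [(2, 4, [(1, 268435456,
  T2), (256, 16, T18)]), (3, 4, [(1, 16, T2), (1, 16777216, T18)]), (3, 4, [(16, 1048576, T2),
  (16, 268435456, T18)]), (3, 4, [(16, 1, T2), (16, 268435456, T18)]), (3, 4, [(16, 1, T2), (16,
  16777216, T18)]), (4, 5, [(16, 1, T2), (16, 268435456, T18)]), (5, 4, [(16, 1, T2), (16, 256,
  T18)]), (5, 4, [(1, 1048576, T2), (1, 16777216, T18)]), (5, 4, [(16777216, 1, T2), (16777216,
  268435456, T18)]), (5, 4, [(16, 1, T2), (16, 268435456, T18)]), (5, 4, [(16, 1, T2), (16,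
  268435456, T18)]), (6, 4, [(256, 1, T2), (256, 16, T18)])]

lemma sts1_ok : rs1.map (sdat [(7, 2), (10, 18)]) = sts1 := by
  decide +kernel

/-- a row -/
def row1 : List ℕ := [675345, 298629, 877046, 519612, 231676, 234659, 571292, 595309,
  226826, 901774, 311981, 318691, 672113, 740598, 903143, 121546, 594272, 962439, 278037, 414611,
  707846, 595766, 111284, 535430, 794777, 986209, 542431, 349974, 668020, 568169, 251975, 56532,
  525183, 248464, 62302, 863831, 645721, 983385, 975875]

lemma row1_ok : (alist.map fun a => stC a sts1) = row1 := by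
  decide +kernel

/-- data of the states -/
def sts2 : List (ℕ × ℕ × List (ℕ × ℕ × ℕ)) := [(2, 4, [(1, 268435456,
  T4), (256, 16, T16)]), (3, 4, [(1, 16, T4), (1, 16777216, T16)]), (3, 4, [(16, 1048576, T4),
  (16, 268435456, T16)]), (3, 4, [(16, 1, T4), (16, 268435456, T16)]), (3, 4, [(16, 1, T4), (16,
  16777216, T16)]), (4, 5, [(16, 1, T4), (16, 268435456, T16)]), (5, 4, [(16, 1, T4), (16, 256,
  T16)]), (5, 4, [(1, 1048576, T4), (1, 16777216, T16)]), (5, 4, [(16777216, 1, T4), (16777216,
  268435456, T16)]), (5, 4, [(16, 1, T4), (16, 268435456, T16)]), (5, 4, [(16, 1, T4), (16,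
  268435456, T16)]), (6, 4, [(256, 1, T4), (256, 16, T16)])]

lemma sts2_ok : rs1.map (sdat [(7, 4), (10, 16)]) = sts2 := by
  decide +kernel

/-- a row -/
def row2 : List ℕ := [675345, 298629, 288586, 647519, 37312, 952805, 286944, 245267,
  164722, 617426, 252932, 269681, 339467, 67522, 989390, 358489, 612334, 779182, 915507, 619350,
  575283, 791376, 158689, 867410, 40135, 195260, 9227, 855896, 867102, 755494, 94181, 971377,
  52770, 733076, 214373, 517303, 172391, 405497, 377023]

lemma row2_ok : (alist.map fun a => stC a sts2) = row2 := by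
  decide +kernel

/-- data of the states -/
def sts3 : List (ℕ × ℕ × List (ℕ × ℕ × ℕ)) := [(2, 4, [(1, 268435456,
  T6), (256, 16, T14)]), (3, 4, [(1, 16, T6), (1, 16777216, T14)]), (3, 4, [(16, 1048576, T6),
  (16, 268435456, T14)]), (3, 4, [(16, 1, T6), (16, 268435456, T14)]), (3, 4, [(16, 1, T6), (16,
  16777216, T14)]), (4, 5, [(16, 1, T6), (16, 268435456, T14)]), (5, 4, [(16, 1, T6), (16, 256,
  T14)]), (5, 4, [(1, 1048576, T6), (1, 16777216, T14)]), (5, 4, [(16777216, 1, T6), (16777216,
  268435456, T14)]), (5, 4, [(16, 1, T6), (16, 268435456, T14)]), (5, 4, [(16, 1, T6), (16,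
  268435456, T14)]), (6, 4, [(256, 1, T6), (256, 16, T14)])]

lemma sts3_ok : rs1.map (sdat [(7, 6), (10, 14)]) = sts3 := by
  decide +kernel

/-- a row -/
def row3 : List ℕ := [675345, 298629, 761344, 369435, 742717, 323417, 71639, 533828,
  826800, 402121, 994671, 937113, 256057, 263024, 19175, 633284, 560068, 845071, 775320, 980844,
  674379, 390973, 99199, 631115, 312171, 776391, 419100, 227216, 315196, 947150, 315488, 10980,
  416075, 117823, 129357, 708438, 337734, 573022, 287672]

lemma row3_ok : (alist.map fun a => stC a sts3) = row3 := by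
  decide +kernel

/-- data of the states -/
def sts4 : List (ℕ × ℕ × List (ℕ × ℕ × ℕ)) := [(2, 4, [(16, 4096, T2),
  (1, 268435456, T2), (256, 16, T16)]), (3, 4, [(1048576, 256, T2), (1, 16, T2), (1, 16777216,
  T16)]), (3, 4, [(16777216, 4096, T2), (16, 1048576, T2), (16, 268435456, T16)]), (3, 4,
  [(16777216, 4096, T2), (16, 1, T2), (16, 268435456, T16)]), (3, 4, [(16777216, 256, T2), (16, 1,
  T2), (16, 16777216, T16)]), (4, 5, [(16777216, 4096, T2), (16, 1, T2), (16, 268435456, T16)]),
  (5, 4, [(16777216, 256, T2), (16, 1, T2), (16, 256, T16)]), (5, 4, [(1048576, 256, T2), (1,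
  1048576, T2), (1, 16777216, T16)]), (5, 4, [(16, 16777216, T2), (16777216, 1, T2), (16777216,
  268435456, T16)]), (5, 4, [(16777216, 4096, T2), (16, 1, T2), (16, 268435456, T16)]), (5, 4,
  [(16777216, 4096, T2), (16, 1, T2), (16, 268435456, T16)]), (6, 4, [(4294967296, 16777216, T2),
  (256, 1, T2), (256, 16, T16)])]

lemma sts4_ok : rs1.map (sdat [(5, 2), (7, 2), (10, 16)]) = sts4 := by
  decide +kernel

/-- a row -/
def row4 : List ℕ := [837674, 649316, 621593, 191185, 104099, 718810, 821811, 313147,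
  234129, 115892, 180231, 267415, 192435, 355425, 804183, 593803, 563761, 335826, 385822, 316489,
  471141, 614583, 75174, 122206, 93180, 618090, 473048, 65545, 625560, 653863, 671424, 692577,
  799623, 385031, 578781, 221337, 725558, 602459, 395714]

lemma row4_ok : (alist.map fun a => stC a sts4) = row4 := by
  decide +kernel

/-- data of the states -/
def sts5 : List (ℕ × ℕ × List (ℕ × ℕ × ℕ)) := [(2, 4, [(16, 4096, T2),
  (1, 268435456, T4), (256, 16, T14)]), (3, 4, [(1048576, 256, T2), (1, 16, T4), (1, 16777216,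
  T14)]), (3, 4, [(16777216, 4096, T2), (16, 1048576, T4), (16, 268435456, T14)]), (3, 4,
  [(16777216, 4096, T2), (16, 1, T4), (16, 268435456, T14)]), (3, 4, [(16777216, 256, T2), (16, 1,
  T4), (16, 16777216, T14)]), (4, 5, [(16777216, 4096, T2), (16, 1, T4), (16, 268435456, T14)]),
  (5, 4, [(16777216, 256, T2), (16, 1, T4), (16, 256, T14)]), (5, 4, [(1048576, 256, T2), (1,
  1048576, T4), (1, 16777216, T14)]), (5, 4, [(16, 16777216, T2), (16777216, 1, T4), (16777216,
  268435456, T14)]), (5, 4, [(16777216, 4096, T2), (16, 1, T4), (16, 268435456, T14)]), (5, 4,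
  [(16777216, 4096, T2), (16, 1, T4), (16, 268435456, T14)]), (6, 4, [(4294967296, 16777216, T2),
  (256, 1, T4), (256, 16, T14)])]

lemma sts5_ok : rs1.map (sdat [(5, 2), (7, 4), (10, 14)]) = sts5 := by
  decide +kernel

/-- a row -/
def row5 : List ℕ := [837674, 649316, 979728, 352547, 617794, 780077, 482190, 548744,
  726443, 279921, 991374, 207895, 936145, 597147, 846227, 982212, 780135, 600575, 100844, 210862,
  823667, 551183, 58972, 201428, 869461, 985704, 201147, 943817, 956591, 165323, 217968, 474945,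
  131529, 369224, 162383, 427444, 206429, 187871, 409700]

lemma row5_ok : (alist.map fun a => stC a sts5) = row5 := by
  decide +kernel

/-- data of the states -/
def sts6 : List (ℕ × ℕ × List (ℕ × ℕ × ℕ)) := [(2, 4, [(16, 4096, T2),
  (1, 268435456, T6), (256, 16, T12)]), (3, 4, [(1048576, 256, T2), (1, 16, T6), (1, 16777216,
  T12)]), (3, 4, [(16777216, 4096, T2), (16, 1048576, T6), (16, 268435456, T12)]), (3, 4,
  [(16777216, 4096, T2), (16, 1, T6), (16, 268435456, T12)]), (3, 4, [(16777216, 256, T2), (16, 1,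
  T6), (16, 16777216, T12)]), (4, 5, [(16777216, 4096, T2), (16, 1, T6), (16, 268435456, T12)]),
  (5, 4, [(16777216, 256, T2), (16, 1, T6), (16, 256, T12)]), (5, 4, [(1048576, 256, T2), (1,
  1048576, T6), (1, 16777216, T12)]), (5, 4, [(16, 16777216, T2), (16777216, 1, T6), (16777216,
  268435456, T12)]), (5, 4, [(16777216, 4096, T2), (16, 1, T6), (16, 268435456, T12)]), (5, 4,
  [(16777216, 4096, T2), (16, 1, T6), (16, 268435456, T12)]), (6, 4, [(4294967296, 16777216, T2),
  (256, 1, T6), (256, 16, T12)])]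

lemma sts6_ok : rs1.map (sdat [(5, 2), (7, 6), (10, 12)]) = sts6 := by
  decide +kernel

/-- a row -/
def row6 : List ℕ := [837674, 649316, 324717, 849771, 673043, 465575, 563467, 743914,
  938330, 460202, 70930, 308683, 189162, 381472, 570307, 792565, 13884, 2985, 664206, 620189,
  268318, 973038, 584191, 547907, 507604, 527418, 755470, 925745, 595549, 907980, 277071, 852265,
  741949, 315744, 431256, 3477, 492737, 849704, 871891]

lemma row6_ok : (alist.map fun a => stC a sts6) = row6 := by
  decide +kernel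

/-- data of the states -/
def sts7 : List (ℕ × ℕ × List (ℕ × ℕ × ℕ)) := [(2, 4, [(16, 4096, T2),
  (1, 268435456, T8), (256, 16, T10)]), (3, 4, [(1048576, 256, T2), (1, 16, T8), (1, 16777216,
  T10)]), (3, 4, [(16777216, 4096, T2), (16, 1048576, T8), (16, 268435456, T10)]), (3, 4,
  [(16777216, 4096, T2), (16, 1, T8), (16, 268435456, T10)]), (3, 4, [(16777216, 256, T2), (16, 1,
  T8), (16, 16777216, T10)]), (4, 5, [(16777216, 4096, T2), (16, 1, T8), (16, 268435456, T10)]),
  (5, 4, [(16777216, 256, T2), (16, 1, T8), (16, 256, T10)]), (5, 4, [(1048576, 256, T2), (1,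
  1048576, T8), (1, 16777216, T10)]), (5, 4, [(16, 16777216, T2), (16777216, 1, T8), (16777216,
  268435456, T10)]), (5, 4, [(16777216, 4096, T2), (16, 1, T8), (16, 268435456, T10)]), (5, 4,
  [(16777216, 4096, T2), (16, 1, T8), (16, 268435456, T10)]), (6, 4, [(4294967296, 16777216, T2),
  (256, 1, T8), (256, 16, T10)])]

lemma sts7_ok : rs1.map (sdat [(5, 2), (7, 8), (10, 10)]) = sts7 := by
  decide +kernel

/-- a row -/
def row7 : List ℕ := [837674, 649316, 438452, 258068, 444717, 547918, 825956, 927456,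
  58333, 686178, 524960, 285223, 460267, 206873, 123912, 108778, 668691, 564992, 468069, 570967,
  345083, 700565, 181864, 691359, 587250, 509248, 238121, 655790, 517032, 715830, 690942, 507139,
  407548, 32966, 382493, 437642, 945164, 809449, 557838]

lemma row7_ok : (alist.map fun a => stC a sts7) = row7 := by
  decide +kernel

/-- data of the states -/
def sts8 : List (ℕ × ℕ × List (ℕ × ℕ × ℕ)) := [(2, 4, [(16, 4096, T2),
  (1, 268435456, T10), (256, 16, T8)]), (3, 4, [(1048576, 256, T2), (1, 16, T10), (1, 16777216,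
  T8)]), (3, 4, [(16777216, 4096, T2), (16, 1048576, T10), (16, 268435456, T8)]), (3, 4,
  [(16777216, 4096, T2), (16, 1, T10), (16, 268435456, T8)]), (3, 4, [(16777216, 256, T2), (16, 1,
  T10), (16, 16777216, T8)]), (4, 5, [(16777216, 4096, T2), (16, 1, T10), (16, 268435456, T8)]),
  (5, 4, [(16777216, 256, T2), (16, 1, T10), (16, 256, T8)]), (5, 4, [(1048576, 256, T2), (1,
  1048576, T10), (1, 16777216, T8)]), (5, 4, [(16, 16777216, T2), (16777216, 1, T10), (16777216,
  268435456, T8)]), (5, 4, [(16777216, 4096, T2), (16, 1, T10), (16, 268435456, T8)]), (5, 4,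
  [(16777216, 4096, T2), (16, 1, T10), (16, 268435456, T8)]), (6, 4, [(4294967296, 16777216, T2),
  (256, 1, T10), (256, 16, T8)])]

lemma sts8_ok : rs1.map (sdat [(5, 2), (7, 10), (10, 8)]) = sts8 := by
  decide +kernel

/-- a row -/
def row8 : List ℕ := [837674, 649316, 438452, 258068, 444717, 547918, 825956, 927456,
  58333, 686178, 524960, 285223, 460267, 206873, 123912, 108778, 668691, 564992, 282726, 12748,
  436828, 263896, 469546, 594961, 601096, 509248, 238121, 655790, 517032, 715830, 947383, 886566,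
  874484, 488092, 382493, 437642, 791419, 754417, 688975]

lemma row8_ok : (alist.map fun a => stC a sts8) = row8 := by
  decide +kernel

/-- data of the states -/
def sts9 : List (ℕ × ℕ × List (ℕ × ℕ × ℕ)) := [(2, 4, [(16, 4096, T2),
  (1, 268435456, T12), (256, 16, T6)]), (3, 4, [(1048576, 256, T2), (1, 16, T12), (1, 16777216,
  T6)]), (3, 4, [(16777216, 4096, T2), (16, 1048576, T12), (16, 268435456, T6)]), (3, 4,
  [(16777216, 4096, T2), (16, 1, T12), (16, 268435456, T6)]), (3, 4, [(16777216, 256, T2), (16, 1,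
  T12), (16, 16777216, T6)]), (4, 5, [(16777216, 4096, T2), (16, 1, T12), (16, 268435456, T6)]),
  (5, 4, [(16777216, 256, T2), (16, 1, T12), (16, 256, T6)]), (5, 4, [(1048576, 256, T2), (1,
  1048576, T12), (1, 16777216, T6)]), (5, 4, [(16, 16777216, T2), (16777216, 1, T12), (16777216,
  268435456, T6)]), (5, 4, [(16777216, 4096, T2), (16, 1, T12), (16, 268435456, T6)]), (5, 4,
  [(16777216, 4096, T2), (16, 1, T12), (16, 268435456, T6)]), (6, 4, [(4294967296, 16777216, T2),
  (256, 1, T12), (256, 16, T6)])]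

lemma sts9_ok : rs1.map (sdat [(5, 2), (7, 12), (10, 6)]) = sts9 := by
  decide +kernel

/-- a row -/
def row9 : List ℕ := [837674, 649316, 324717, 849771, 673043, 465575, 563467, 743914,
  938330, 460202, 70930, 308683, 189162, 381472, 570307, 792565, 13884, 2985, 986237, 3738,
  263060, 4479, 454266, 922244, 855054, 527418, 755470, 925745, 595549, 907980, 982654, 717082,
  147727, 639070, 431256, 3477, 276578, 731768, 583371]

lemma row9_ok : (alist.map fun a => stC a sts9) = row9 := by
  decide +kernel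

end Pool.Agent.H802R3.Vas
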