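import Pool.Agent.H802R3.Vas.DataB

/-!
# Rows of the matrix
-/

set_option autoImplicit false

namespace Pool.Agent.H802R3.Vas

/-- data of the states -/
def sts10 : List (ℕ × ℕ × List (ℕ × ℕ × ℕ)) := [(2, 4, [(16, 4096, T2),
  (1, 268435456, T14), (256, 16, T4)]), (3, 4, [(1048576, 256, T2), (1, 16, T14), (1, 16777216,
  T4)]), (3, 4, [(16777216, 4096, T2), (16, 1048576, T14), (16, 268435456, T4)]), (3, 4,
  [(16777216, 4096, T2), (16, 1, T14), (16, 268435456, T4)]), (3, 4, [(16777216, 256, T2), (16, 1,
  T14), (16, 16777216, T4)]), (4, 5, [(16777216, 4096, T2), (16, 1, T14), (16, 268435456, T4)]),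
  (5, 4, [(16777216, 256, T2), (16, 1, T14), (16, 256, T4)]), (5, 4, [(1048576, 256, T2), (1,
  1048576, T14), (1, 16777216, T4)]), (5, 4, [(16, 16777216, T2), (16777216, 1, T14), (16777216,
  268435456, T4)]), (5, 4, [(16777216, 4096, T2), (16, 1, T14), (16, 268435456, T4)]), (5, 4,
  [(16777216, 4096, T2), (16, 1, T14), (16, 268435456, T4)]), (6, 4, [(4294967296, 16777216, T2),
  (256, 1, T14), (256, 16, T4)])]

lemma sts10_ok : rs1.map (sdat [(5, 2), (7, 14), (10, 4)]) = sts10 := by
  decide +kernel

/-- a row -/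
def row10 : List ℕ := [837674, 649316, 979728, 352547, 617794, 780077, 482190,
  548744, 726443, 279921, 991374, 207895, 936145, 597147, 846227, 982212, 780135, 600575, 337223,
  71820, 676368, 236489, 451321, 845710, 200497, 985704, 201147, 943817, 956591, 165323, 315305,
  719995, 461117, 571131, 162383, 427444, 907916, 346542, 58732]

lemma row10_ok : (alist.map fun a => stC a sts10) = row10 := by
  decide +kernel

/-- data of the states -/
def sts11 : List (ℕ × ℕ × List (ℕ × ℕ × ℕ)) := [(2, 4, [(16, 4096, T2),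
  (1, 268435456, T18)]), (3, 4, [(1048576, 256, T2), (1, 16, T18)]), (3, 4, [(16777216, 4096, T2),
  (16, 1048576, T18)]), (3, 4, [(16777216, 4096, T2), (16, 1, T18)]), (3, 4, [(16777216, 256, T2),
  (16, 1, T18)]), (4, 5, [(16777216, 4096, T2), (16, 1, T18)]), (5, 4, [(16777216, 256, T2), (16,
  1, T18)]), (5, 4, [(1048576, 256, T2), (1, 1048576, T18)]), (5, 4, [(16, 16777216, T2),
  (16777216, 1, T18)]), (5, 4, [(16777216, 4096, T2), (16, 1, T18)]), (5, 4, [(16777216, 4096,
  T2), (16, 1, T18)]), (6, 4, [(4294967296, 16777216, T2), (256, 1, T18)])]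

lemma sts11_ok : rs1.map (sdat [(5, 2), (7, 18)]) = sts11 := by
  decide +kernel

/-- a row -/
def row11 : List ℕ := [675345, 460958, 877046, 519612, 231676, 234659, 571292,
  595309, 226826, 901774, 311981, 318691, 672113, 740598, 903143, 121546, 594272, 962439, 28402,
  763396, 929183, 174841, 105765, 121032, 709767, 986209, 542431, 349974, 668020, 568169, 671042,
  427026, 489111, 869887, 62302, 863831, 370206, 953175, 267406]

lemma row11_ok : (alist.map fun a => stC a sts11) = row11 := by
  decide +kernel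

/-- data of the states -/
def sts12 : List (ℕ × ℕ × List (ℕ × ℕ × ℕ)) := [(2, 4, [(16, 4096, T4),
  (1, 268435456, T4), (256, 16, T12)]), (3, 4, [(1048576, 256, T4), (1, 16, T4), (1, 16777216,
  T12)]), (3, 4, [(16777216, 4096, T4), (16, 1048576, T4), (16, 268435456, T12)]), (3, 4,
  [(16777216, 4096, T4), (16, 1, T4), (16, 268435456, T12)]), (3, 4, [(16777216, 256, T4), (16, 1,
  T4), (16, 16777216, T12)]), (4, 5, [(16777216, 4096, T4), (16, 1, T4), (16, 268435456, T12)]),
  (5, 4, [(16777216, 256, T4), (16, 1, T4), (16, 256, T12)]), (5, 4, [(1048576, 256, T4), (1,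
  1048576, T4), (1, 16777216, T12)]), (5, 4, [(16, 16777216, T4), (16777216, 1, T4), (16777216,
  268435456, T12)]), (5, 4, [(16777216, 4096, T4), (16, 1, T4), (16, 268435456, T12)]), (5, 4,
  [(16777216, 4096, T4), (16, 1, T4), (16, 268435456, T12)]), (6, 4, [(4294967296, 16777216, T4),
  (256, 1, T4), (256, 16, T12)])]

lemma sts12_ok : rs1.map (sdat [(5, 4), (7, 4), (10, 12)]) = sts12 := by
  decide +kernel

/-- a row -/
def row12 : List ℕ := [837674, 649316, 317172, 20871, 33823, 523728, 531289, 17421,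
  991969, 717630, 903569, 793992, 853119, 342432, 932493, 360564, 591427, 874789, 722382, 587318,
  503500, 832263, 950012, 912467, 404008, 647629, 827870, 336863, 24137, 425556, 114483, 698549,
  682278, 969990, 534227, 540419, 732060, 557902, 87860]

lemma row12_ok : (alist.map fun a => stC a sts12) = row12 := by
  decide +kernel

/-- data of the states -/
def sts13 : List (ℕ × ℕ × List (ℕ × ℕ × ℕ)) := [(2, 4, [(16, 4096, T4),
  (1, 268435456, T6), (256, 16, T10)]), (3, 4, [(1048576, 256, T4), (1, 16, T6), (1, 16777216,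
  T10)]), (3, 4, [(16777216, 4096, T4), (16, 1048576, T6), (16, 268435456, T10)]), (3, 4,
  [(16777216, 4096, T4), (16, 1, T6), (16, 268435456, T10)]), (3, 4, [(16777216, 256, T4), (16, 1,
  T6), (16, 16777216, T10)]), (4, 5, [(16777216, 4096, T4), (16, 1, T6), (16, 268435456, T10)]),
  (5, 4, [(16777216, 256, T4), (16, 1, T6), (16, 256, T10)]), (5, 4, [(1048576, 256, T4), (1,
  1048576, T6), (1, 16777216, T10)]), (5, 4, [(16, 16777216, T4), (16777216, 1, T6), (16777216,
  268435456, T10)]), (5, 4, [(16777216, 4096, T4), (16, 1, T6), (16, 268435456, T10)]), (5, 4,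
  [(16777216, 4096, T4), (16, 1, T6), (16, 268435456, T10)]), (6, 4, [(4294967296, 16777216, T4),
  (256, 1, T6), (256, 16, T10)])]

lemma sts13_ok : rs1.map (sdat [(5, 4), (7, 6), (10, 10)]) = sts13 := by
  decide +kernel

/-- a row -/
def row13 : List ℕ := [837674, 649316, 35361, 124336, 158530, 189817, 297503, 951491,
  398956, 402791, 883826, 537509, 981912, 504617, 906619, 164256, 833531, 929829, 38441, 56646,
  999606, 882287, 97791, 483364, 329961, 129017, 795048, 388298, 703344, 213850, 810033, 338943,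
  761518, 310410, 395671, 567543, 526372, 551427, 372594]

lemma row13_ok : (alist.map fun a => stC a sts13) = row13 := by
  decide +kernel

/-- data of the states -/
def sts14 : List (ℕ × ℕ × List (ℕ × ℕ × ℕ)) := [(2, 4, [(16, 4096, T4),
  (1, 268435456, T8), (256, 16, T8)]), (3, 4, [(1048576, 256, T4), (1, 16, T8), (1, 16777216,
  T8)]), (3, 4, [(16777216, 4096, T4), (16, 1048576, T8), (16, 268435456, T8)]), (3, 4,
  [(16777216, 4096, T4), (16, 1, T8), (16, 268435456, T8)]), (3, 4, [(16777216, 256, T4), (16, 1,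
  T8), (16, 16777216, T8)]), (4, 5, [(16777216, 4096, T4), (16, 1, T8), (16, 268435456, T8)]), (5,
  4, [(16777216, 256, T4), (16, 1, T8), (16, 256, T8)]), (5, 4, [(1048576, 256, T4), (1, 1048576,
  T8), (1, 16777216, T8)]), (5, 4, [(16, 16777216, T4), (16777216, 1, T8), (16777216, 268435456,
  T8)]), (5, 4, [(16777216, 4096, T4), (16, 1, T8), (16, 268435456, T8)]), (5, 4, [(16777216,
  4096, T4), (16, 1, T8), (16, 268435456, T8)]), (6, 4, [(4294967296, 16777216, T4), (256, 1, T8),
  (256, 16, T8)])]

lemma sts14_ok : rs1.map (sdat [(5, 4), (7, 8), (10, 8)]) = sts14 := by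
  decide +kernel

/-- a row -/
def row14 : List ℕ := [837674, 649316, 581071, 337484, 581678, 706129, 15526, 228728,
  631940, 988512, 23397, 682878, 794719, 232737, 292114, 187254, 979957, 175671, 214834, 950754,
  572401, 558226, 520157, 169818, 353184, 727557, 205964, 243357, 684937, 715088, 104845, 881657,
  389385, 339925, 306474, 361996, 357068, 208259, 869369]

lemma row14_ok : (alist.map fun a => stC a sts14) = row14 := by
  decide +kernel

/-- data of the states -/
def sts15 : List (ℕ × ℕ × List (ℕ × ℕ × ℕ)) := [(2, 4, [(16, 4096, T4),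
  (1, 268435456, T10), (256, 16, T6)]), (3, 4, [(1048576, 256, T4), (1, 16, T10), (1, 16777216,
  T6)]), (3, 4, [(16777216, 4096, T4), (16, 1048576, T10), (16, 268435456, T6)]), (3, 4,
  [(16777216, 4096, T4), (16, 1, T10), (16, 268435456, T6)]), (3, 4, [(16777216, 256, T4), (16, 1,
  T10), (16, 16777216, T6)]), (4, 5, [(16777216, 4096, T4), (16, 1, T10), (16, 268435456, T6)]),
  (5, 4, [(16777216, 256, T4), (16, 1, T10), (16, 256, T6)]), (5, 4, [(1048576, 256, T4), (1,
  1048576, T10), (1, 16777216, T6)]), (5, 4, [(16, 16777216, T4), (16777216, 1, T10), (16777216,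
  268435456, T6)]), (5, 4, [(16777216, 4096, T4), (16, 1, T10), (16, 268435456, T6)]), (5, 4,
  [(16777216, 4096, T4), (16, 1, T10), (16, 268435456, T6)]), (6, 4, [(4294967296, 16777216, T4),
  (256, 1, T10), (256, 16, T6)])]

lemma sts15_ok : rs1.map (sdat [(5, 4), (7, 10), (10, 6)]) = sts15 := by
  decide +kernel

/-- a row -/
def row15 : List ℕ := [837674, 649316, 35361, 124336, 158530, 189817, 297503, 951491,
  398956, 402791, 883826, 537509, 981912, 504617, 906619, 164256, 833531, 929829, 175129, 881982,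
  86090, 477062, 255548, 761303, 691257, 129017, 795048, 388298, 703344, 213850, 424265, 272994,
  263189, 555011, 395671, 567543, 908269, 447576, 926260]

lemma row15_ok : (alist.map fun a => stC a sts15) = row15 := by
  decide +kernel

/-- data of the states -/
def sts16 : List (ℕ × ℕ × List (ℕ × ℕ × ℕ)) := [(2, 4, [(16, 4096, T4),
  (1, 268435456, T12), (256, 16, T4)]), (3, 4, [(1048576, 256, T4), (1, 16, T12), (1, 16777216,
  T4)]), (3, 4, [(16777216, 4096, T4), (16, 1048576, T12), (16, 268435456, T4)]), (3, 4,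
  [(16777216, 4096, T4), (16, 1, T12), (16, 268435456, T4)]), (3, 4, [(16777216, 256, T4), (16, 1,
  T12), (16, 16777216, T4)]), (4, 5, [(16777216, 4096, T4), (16, 1, T12), (16, 268435456, T4)]),
  (5, 4, [(16777216, 256, T4), (16, 1, T12), (16, 256, T4)]), (5, 4, [(1048576, 256, T4), (1,
  1048576, T12), (1, 16777216, T4)]), (5, 4, [(16, 16777216, T4), (16777216, 1, T12), (16777216,
  268435456, T4)]), (5, 4, [(16777216, 4096, T4), (16, 1, T12), (16, 268435456, T4)]), (5, 4,
  [(16777216, 4096, T4), (16, 1, T12), (16, 268435456, T4)]), (6, 4, [(4294967296, 16777216, T4),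
  (256, 1, T12), (256, 16, T4)])]

lemma sts16_ok : rs1.map (sdat [(5, 4), (7, 12), (10, 4)]) = sts16 := by
  decide +kernel

/-- a row -/
def row16 : List ℕ := [837674, 649316, 317172, 20871, 33823, 523728, 531289, 17421,
  991969, 717630, 903569, 793992, 853119, 342432, 932493, 360564, 591427, 874789, 280789, 831828,
  350943, 549013, 212433, 931083, 82494, 647629, 827870, 336863, 24137, 425556, 924729, 513275,
  685082, 186567, 534227, 540419, 740970, 65032, 122516]

lemma row16_ok : (alist.map fun a => stC a sts16) = row16 := by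
  decide +kernel

/-- data of the states -/
def sts17 : List (ℕ × ℕ × List (ℕ × ℕ × ℕ)) := [(2, 4, [(16, 4096, T4),
  (1, 268435456, T14), (256, 16, T2)]), (3, 4, [(1048576, 256, T4), (1, 16, T14), (1, 16777216,
  T2)]), (3, 4, [(16777216, 4096, T4), (16, 1048576, T14), (16, 268435456, T2)]), (3, 4,
  [(16777216, 4096, T4), (16, 1, T14), (16, 268435456, T2)]), (3, 4, [(16777216, 256, T4), (16, 1,
  T14), (16, 16777216, T2)]), (4, 5, [(16777216, 4096, T4), (16, 1, T14), (16, 268435456, T2)]),
  (5, 4, [(16777216, 256, T4), (16, 1, T14), (16, 256, T2)]), (5, 4, [(1048576, 256, T4), (1,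
  1048576, T14), (1, 16777216, T2)]), (5, 4, [(16, 16777216, T4), (16777216, 1, T14), (16777216,
  268435456, T2)]), (5, 4, [(16777216, 4096, T4), (16, 1, T14), (16, 268435456, T2)]), (5, 4,
  [(16777216, 4096, T4), (16, 1, T14), (16, 268435456, T2)]), (6, 4, [(4294967296, 16777216, T4),
  (256, 1, T14), (256, 16, T2)])]

lemma sts17_ok : rs1.map (sdat [(5, 4), (7, 14), (10, 2)]) = sts17 := by
  decide +kernel

/-- a row -/
def row17 : List ℕ := [837674, 649316, 979728, 352547, 617794, 780077, 482190,
  548744, 726443, 279921, 991374, 207895, 936145, 597147, 846227, 982212, 780135, 600575, 42993,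
  635775, 579186, 595562, 309147, 670689, 169445, 985704, 201147, 943817, 956591, 165323, 601183,
  145471, 190627, 413583, 162383, 427444, 970832, 683845, 482424]

lemma row17_ok : (alist.map fun a => stC a sts17) = row17 := by
  decide +kernel

/-- data of the states -/
def sts18 : List (ℕ × ℕ × List (ℕ × ℕ × ℕ)) := [(2, 4, [(16, 4096, T4),
  (1, 268435456, T16)]), (3, 4, [(1048576, 256, T4), (1, 16, T16)]), (3, 4, [(16777216, 4096, T4),
  (16, 1048576, T16)]), (3, 4, [(16777216, 4096, T4), (16, 1, T16)]), (3, 4, [(16777216, 256, T4),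
  (16, 1, T16)]), (4, 5, [(16777216, 4096, T4), (16, 1, T16)]), (5, 4, [(16777216, 256, T4), (16,
  1, T16)]), (5, 4, [(1048576, 256, T4), (1, 1048576, T16)]), (5, 4, [(16, 16777216, T4),
  (16777216, 1, T16)]), (5, 4, [(16777216, 4096, T4), (16, 1, T16)]), (5, 4, [(16777216, 4096,
  T4), (16, 1, T16)]), (6, 4, [(4294967296, 16777216, T4), (256, 1, T16)])]

lemma sts18_ok : rs1.map (sdat [(5, 4), (7, 16)]) = sts18 := by
  decide +kernel

/-- a row -/
def row18 : List ℕ := [675345, 460958, 288586, 647519, 37312, 952805, 286944, 245267,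
  164722, 617426, 252932, 269681, 339467, 67522, 989390, 358489, 612334, 779182, 371642, 532087,
  699438, 729524, 10996, 277991, 924076, 195260, 9227, 855896, 867102, 755494, 646279, 937158,
  5713, 327531, 214373, 517303, 170204, 85801, 45634]

lemma row18_ok : (alist.map fun a => stC a sts18) = row18 := by
  decide +kernel

/-- data of the states -/
def sts19 : List (ℕ × ℕ × List (ℕ × ℕ × ℕ)) := [(2, 4, [(16, 4096, T6),
  (1, 268435456, T6), (256, 16, T8)]), (3, 4, [(1048576, 256, T6), (1, 16, T6), (1, 16777216,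
  T8)]), (3, 4, [(16777216, 4096, T6), (16, 1048576, T6), (16, 268435456, T8)]), (3, 4,
  [(16777216, 4096, T6), (16, 1, T6), (16, 268435456, T8)]), (3, 4, [(16777216, 256, T6), (16, 1,
  T6), (16, 16777216, T8)]), (4, 5, [(16777216, 4096, T6), (16, 1, T6), (16, 268435456, T8)]), (5,
  4, [(16777216, 256, T6), (16, 1, T6), (16, 256, T8)]), (5, 4, [(1048576, 256, T6), (1, 1048576,
  T6), (1, 16777216, T8)]), (5, 4, [(16, 16777216, T6), (16777216, 1, T6), (16777216, 268435456,
  T8)]), (5, 4, [(16777216, 4096, T6), (16, 1, T6), (16, 268435456, T8)]), (5, 4, [(16777216,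
  4096, T6), (16, 1, T6), (16, 268435456, T8)]), (6, 4, [(4294967296, 16777216, T6), (256, 1, T6),
  (256, 16, T8)])]

lemma sts19_ok : rs1.map (sdat [(5, 6), (7, 6), (10, 8)]) = sts19 := by
  decide +kernel

/-- a row -/
def row19 : List ℕ := [837674, 649316, 185525, 32649, 934711, 289875, 519254, 979256,
  918924, 447697, 549627, 325796, 528348, 609402, 957615, 714614, 812234, 320203, 251755, 68638,
  380672, 484412, 641452, 748597, 361182, 62233, 10586, 265655, 309420, 947351, 502344, 489165,
  529558, 28074, 247838, 530865, 300821, 981781, 982692]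

lemma row19_ok : (alist.map fun a => stC a sts19) = row19 := by
  decide +kernel

end Pool.Agent.H802R3.Vas
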