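import Pool.Agent.H802R3.Vas.UF

/-!
# Expanding the product over the edges into states
-/

set_option autoImplicit false

namespace Pool.Agent.H802R3.Vas

open Finset

variable {I : Type}

/-- two constraints -/
def step (r : List ℕ) (u w t u' w' t' : ℕ) : Option (List ℕ) :=
  (merge r u w t).bind fun r1 => merge r1 u' w' t'

lemma step_some {ν : I → I} (hν : Function.Involutive ν) {r r' : List ℕ} {u w t u' w' t' : ℕ}
    (hr : Good r) (hu : u < 18) (hw : w < 18) (hu' : u' < 18) (hw' : w' < 18)
    (h : step r u w t u' w' t' = some r') :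
    Good r' ∧ ∀ kk : ℕ → I, Holds ν r' kk ↔
      (Holds ν r kk ∧ kk u = sg ν t (kk w) ∧ kk u' = sg ν t' (kk w')) := by
  unfold step at h
  rw [Option.bind_eq_some_iff] at h
  obtain ⟨r1, h1, h2⟩ := h
  obtain ⟨g1, e1⟩ := merge_some hν hr hu hw h1
  obtain ⟨g2, e2⟩ := merge_some hν g1 hu' hw' h2
  refine ⟨g2, fun kk => ?_⟩
  rw [e2, e1, and_assoc]

lemma step_none {ν : I → I} (hν : Function.Involutive ν) (hn : ∀ i, ν i ≠ i) {r : List ℕ}
    {u w t u' w' t' : ℕ}
    (hr : Good r) (hu : u < 18) (hw : w < 18) (hu' : u' < 18) (hw' : w' < 18)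
    (h : step r u w t u' w' t' = none) (kk : ℕ → I) :
    ¬ (Holds ν r kk ∧ kk u = sg ν t (kk w) ∧ kk u' = sg ν t' (kk w')) := by
  unfold step at h
  rw [Option.bind_eq_none_iff] at h
  rintro ⟨a, b, c⟩
  rcases hm : merge r u w t with _ | r1
  · exact merge_none hν hn hu hw hm kk ⟨a, b⟩
  · obtain ⟨g1, e1⟩ := merge_some hν hr hu hw hm
    exact merge_none hν hn hu' hw' (h r1 hm) kk ⟨(e1 kk).2 ⟨a, b⟩, c⟩

/-- all states: pairs of the number of twisted edges and the solved constraints -/
def run : List (ℕ × ℕ) → List ℕ → ℕ → List (ℕ × List ℕ)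
  | [], r, s => [(s, r)]
  | (a, b) :: es, r, s =>
    (match step r a (nxt b) 0 (nxt a) b 0 with
      | none => []
      | some r' => run es r' s) ++
    (match step r a b 1 (nxt a) (nxt b) 1 with
      | none => []
      | some r' => run es r' (s + 1))

/-- the propagator in terms of the colours of the numbered corners -/
def kapN [DecidableEq I] (ν : I → I) (kk : ℕ → I) (p : ℕ × ℕ) : ℤ :=
  (if kk p.1 = kk (nxt p.2) ∧ kk (nxt p.1) = kk p.2 then 1 else 0) -
    (if kk p.1 = ν (kk p.2) ∧ kk (nxt p.1) = ν (kk (nxt p.2)) then 1 else 0)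

/-- the sum over a list of states -/
def stSum [DecidableEq I] (ν : I → I) (kk : ℕ → I) (l : List (ℕ × List ℕ)) : ℤ :=
  (l.map fun p => if Holds ν p.2 kk then (-1 : ℤ) ^ p.1 else 0).sum

lemma stSum_append [DecidableEq I] (ν : I → I) (kk : ℕ → I) (l l' : List (ℕ × List ℕ)) :
    stSum ν kk (l ++ l') = stSum ν kk l + stSum ν kk l' := by
  simp [stSum]

lemma run_good {ν : I → I} (hν : Function.Involutive ν) (es : List (ℕ × ℕ)) :
    ∀ (r : List ℕ) (s : ℕ), Good r → (∀ p ∈ es, p.1 < 18 ∧ p.2 < 18) →
      ∀ q ∈ run es r s, Good q.2 := by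
  induction es with
  | nil =>
    intro r s hr _ q hq
    simp only [run, List.mem_singleton] at hq
    subst hq
    exact hr
  | cons p es ih =>
    intro r s hr hes q hq
    obtain ⟨a, b⟩ := p
    obtain ⟨ha, hb⟩ := hes (a, b) (by simp)
    have hes' : ∀ p ∈ es, p.1 < 18 ∧ p.2 < 18 := fun p hp => hes p (by simp [hp])
    simp only [run, List.mem_append] at hq
    rcases hq with hq | hq
    · rcases h1 : step r a (nxt b) 0 (nxt a) b 0 with _ | r'
      · simp [h1] at hq
      · simp only [h1] at hq
        obtain ⟨g, _⟩ := step_some hν hr ha (nxt_lt b hb) (nxt_lt a ha) hb h1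
        exact ih r' s g hes' q hq
    · rcases h1 : step r a b 1 (nxt a) (nxt b) 1 with _ | r'
      · simp [h1] at hq
      · simp only [h1] at hq
        obtain ⟨g, _⟩ := step_some hν hr ha hb (nxt_lt a ha) (nxt_lt b hb) h1
        exact ih r' (s + 1) g hes' q hq

theorem run_spec [DecidableEq I] {ν : I → I} (hν : Function.Involutive ν) (hn : ∀ i, ν i ≠ i)
    (kk : ℕ → I) (es : List (ℕ × ℕ)) :
    ∀ (r : List ℕ) (s : ℕ), Good r → (∀ p ∈ es, p.1 < 18 ∧ p.2 < 18) →
      (if Holds ν r kk then (-1 : ℤ) ^ s * (es.map (kapN ν kk)).prod else 0) =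
        stSum ν kk (run es r s) := by
  induction es with
  | nil =>
    intro r s hr _
    simp [run, stSum]
  | cons p es ih =>
    intro r s hr hes
    obtain ⟨a, b⟩ := p
    obtain ⟨ha, hb⟩ := hes (a, b) (by simp)
    have hes' : ∀ p ∈ es, p.1 < 18 ∧ p.2 < 18 := fun p hp => hes p (by simp [hp])
    simp only [run, stSum_append]
    have h0 : ∀ i : I, sg ν 0 i = i := fun i => sg_even ν rfl i
    have h1 : ∀ i : I, sg ν 1 i = ν i := fun i => by simp [sg]
    have eS : stSum ν kk (match step r a (nxt b) 0 (nxt a) b 0 with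
        | none => []
        | some r' => run es r' s) =
        if Holds ν r kk ∧ kk a = kk (nxt b) ∧ kk (nxt a) = kk b then
          (-1 : ℤ) ^ s * (es.map (kapN ν kk)).prod else 0 := by
      rcases hst : step r a (nxt b) 0 (nxt a) b 0 with _ | r'
      · have := step_none hν hn hr ha (nxt_lt b hb) (nxt_lt a ha) hb hst kk
        rw [h0, h0] at this
        rw [if_neg this]
        rfl
      · obtain ⟨g, e⟩ := step_some hν hr ha (nxt_lt b hb) (nxt_lt a ha) hb hst
        simp only
        rw [← ih r' s g hes']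
        have e' := e kk
        rw [h0, h0] at e'
        simp only [e']
    have eT : stSum ν kk (match step r a b 1 (nxt a) (nxt b) 1 with
        | none => []
        | some r' => run es r' (s + 1)) =
        if Holds ν r kk ∧ kk a = ν (kk b) ∧ kk (nxt a) = ν (kk (nxt b)) then
          (-1 : ℤ) ^ (s + 1) * (es.map (kapN ν kk)).prod else 0 := by
      rcases hst : step r a b 1 (nxt a) (nxt b) 1 with _ | r'
      · have := step_none hν hn hr ha hb (nxt_lt a ha) (nxt_lt b hb) hst kk
        rw [h1, h1] at this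
        rw [if_neg this]
        rfl
      · obtain ⟨g, e⟩ := step_some hν hr ha hb (nxt_lt a ha) (nxt_lt b hb) hst
        simp only
        rw [← ih r' (s + 1) g hes']
        have e' := e kk
        rw [h1, h1] at e'
        simp only [e']
    rw [eS, eT, List.map_cons, List.prod_cons]
    by_cases hh : Holds ν r kk
    · simp only [hh, true_and, if_true, kapN]
      split_ifs <;> ring
    · simp [hh]

end Pool.Agent.H802R3.Vas
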