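import Pool.Agent.H802R3.Vas.Run

/-!
# Summation over the solutions of the constraints
-/

set_option autoImplicit false

namespace Pool.Agent.H802R3.Vas

open Finset

variable {I : Type}

/-- the free corners -/
def roots (r : List ℕ) : List ℕ := (List.range 18).filter fun u => r.getD u 0 == 2 * u

/-- the number of the free corner on which the corner `u` depends -/
def idx (r : List ℕ) (u : ℕ) : ℕ := (roots r).idxOf (r.getD u 0 / 2)

lemma mem_roots (r : List ℕ) (u : ℕ) : u ∈ roots r ↔ (u < 18 ∧ r.getD u 0 = 2 * u) := by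
  simp [roots]

lemma roots_nodup (r : List ℕ) : (roots r).Nodup := List.Nodup.filter _ List.nodup_range

lemma root_mem {r : List ℕ} (hr : Good r) {u : ℕ} (hu : u < 18) : r.getD u 0 / 2 ∈ roots r := by
  rw [mem_roots]
  exact hr.2 u hu

lemma idx_lt {r : List ℕ} (hr : Good r) {u : ℕ} (hu : u < 18) : idx r u < (roots r).length :=
  List.idxOf_lt_length_of_mem (root_mem hr hu)

lemma idx_root {r : List ℕ} (i : Fin (roots r).length) :
    idx r ((roots r).get i) = i := by
  have h := (mem_roots r ((roots r).get i)).1 (List.get_mem _ _)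
  unfold idx
  rw [h.2, Nat.mul_div_cancel_left _ (by norm_num)]
  exact List.Nodup.idxOf_getElem (roots_nodup r) i.1 i.2

/-- the solution with prescribed values at the free corners -/
def ext (ν : I → I) (r : List ℕ) (hr : Good r) (c : Fin (roots r).length → I) : Half 6 0 → I :=
  fun h => sg ν (r.getD (code h) 0) (c ⟨idx r (code h), idx_lt hr (code_lt h)⟩)

lemma ext_dec (ν : I → I) (r : List ℕ) (hr : Good r) (c : Fin (roots r).length → I) (u : ℕ)
    (hu : u < 18) : ext ν r hr c (dec u) = sg ν (r.getD u 0) (c ⟨idx r u, idx_lt hr hu⟩) := by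
  unfold ext
  simp only [code_dec u hu]

lemma idx_div {r : List ℕ} (hr : Good r) {u : ℕ} (hu : u < 18) :
    idx r (r.getD u 0 / 2) = idx r u := by
  unfold idx
  rw [(hr.2 u hu).2, Nat.mul_div_cancel_left _ (by norm_num)]

lemma ext_holds (ν : I → I) (r : List ℕ) (hr : Good r) (c : Fin (roots r).length → I) :
    Holds ν r (fun u => ext ν r hr c (dec u)) := by
  intro u hu
  simp only
  have h3 : r.getD (r.getD u 0 / 2) 0 % 2 = 0 := by rw [(hr.2 u hu).2]; omega
  rw [ext_dec ν r hr c u hu, ext_dec ν r hr c _ (hr.2 u hu).1, sg_even ν h3]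
  congr 2
  ext
  exact (idx_div hr hu).symm

lemma sum_holds [Fintype I] [DecidableEq I] (ν : I → I) (r : List ℕ) (hr : Good r)
    (G : (Half 6 0 → I) → ℤ) :
    ∑ k : Half 6 0 → I, (if Holds ν r (fun u => k (dec u)) then G k else 0) =
      ∑ c : Fin (roots r).length → I, G (ext ν r hr c) := by
  rw [← Finset.sum_filter]
  refine Finset.sum_nbij' (fun k i => k (dec ((roots r).get i))) (fun c => ext ν r hr c)
    ?_ ?_ ?_ ?_ ?_
  · intro k _; exact Finset.mem_univ _
  · intro c _
    simp only [Finset.mem_filter, Finset.mem_univ, true_and]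
    exact ext_holds ν r hr c
  · intro k hk
    simp only [Finset.mem_filter, Finset.mem_univ, true_and] at hk
    funext h
    have h1 := hk (code h) (code_lt h)
    simp only [dec_code] at h1
    conv_rhs => rw [h1]
    unfold ext
    refine congrArg (sg ν _) ?_
    exact congrArg (fun t => k (dec t)) (List.getElem_idxOf (idx_lt hr (code_lt h)))
  · intro c _
    funext i
    have hi := (mem_roots r ((roots r).get i)).1 (List.get_mem _ _)
    show ext ν r hr c (dec ((roots r).get i)) = c i
    have h3 : r.getD ((roots r).get i) 0 % 2 = 0 := by rw [hi.2]; omega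
    rw [ext_dec ν r hr c _ hi.1, sg_even ν h3]
    congr 1
    ext
    exact idx_root i
  · intro k hk
    simp only [Finset.mem_filter, Finset.mem_univ, true_and] at hk
    congr 1
    funext h
    have h1 := hk (code h) (code_lt h)
    simp only [dec_code] at h1
    rw [h1]
    unfold ext
    refine congrArg (sg ν _) ?_
    exact (congrArg (fun t => k (dec t)) (List.getElem_idxOf (idx_lt hr (code_lt h)))).symm

end Pool.Agent.H802R3.Vas
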