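import Pool.Agent.H802R3.Vas.Grow

/-!
# Solving the colour constraints on a cubic graph with six vertices
-/

set_option autoImplicit false

namespace Pool.Agent.H802R3.Vas

open Finset

variable {I : Type}

/-- the number of a half-edge -/
def code : Half 6 0 → ℕ
  | Sum.inl (v, i) => 3 * v + i
  | Sum.inr _ => 0

/-- the half-edge with a given number -/
def dec (m : ℕ) : Half 6 0 :=
  Sum.inl (⟨m / 3 % 6, Nat.mod_lt _ (by norm_num)⟩, ⟨m % 3, Nat.mod_lt _ (by norm_num)⟩)

/-- the next corner -/
def nxt (m : ℕ) : ℕ := if m % 3 = 2 then m - 2 else m + 1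

lemma code_lt (h : Half 6 0) : code h < 18 := by
  rcases h with ⟨v, i⟩ | l
  · have := v.2; have := i.2; simp only [code]; omega
  · exact l.elim0

lemma dec_code (h : Half 6 0) : dec (code h) = h := by
  rcases h with ⟨v, i⟩ | l
  · have := v.2; have := i.2
    simp only [code, dec, Sum.inl.injEq, Prod.mk.injEq]
    constructor
    · ext; simp only; omega
    · ext; simp only; omega
  · exact l.elim0

lemma code_dec (u : ℕ) (hu : u < 18) : code (dec u) = u := by
  simp only [code, dec]
  omega

lemma nxt_lt (u : ℕ) (hu : u < 18) : nxt u < 18 := by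
  unfold nxt
  split_ifs
  · omega
  · omega

lemma lab_dec (k : Half 6 0 → I) (u : ℕ) (hu : u < 18) :
    lab k (dec u) = (k (dec u), k (dec (nxt u))) := by
  have : ∀ u : Fin 18, (Sum.inl ((⟨u.1 / 3 % 6, Nat.mod_lt _ (by norm_num)⟩ : Fin 6),
      (⟨u.1 % 3, Nat.mod_lt _ (by norm_num)⟩ : Fin 3) + 1) : Half 6 0) = dec (nxt u.1) := by
    decide
  have h := this ⟨u, hu⟩
  simp only at h
  simp only [dec] at h ⊢
  simp only [lab]
  rw [h]

/-- the sign action -/
def sg (ν : I → I) (t : ℕ) (i : I) : I := if t % 2 = 0 then i else ν i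

lemma sg_sg {ν : I → I} (hν : Function.Involutive ν) (s t : ℕ) (i : I) :
    sg ν s (sg ν t i) = sg ν (s + t) i := by
  unfold sg
  rcases Nat.mod_two_eq_zero_or_one s with h | h <;>
    rcases Nat.mod_two_eq_zero_or_one t with h' | h' <;>
    simp [h, h', Nat.add_mod, hν _]

lemma sg_congr (ν : I → I) {s t : ℕ} (h : s % 2 = t % 2) (i : I) : sg ν s i = sg ν t i := by
  unfold sg; rw [h]

lemma sg_even (ν : I → I) {s : ℕ} (h : s % 2 = 0) (i : I) : sg ν s i = i := by
  unfold sg; rw [if_pos h]

/-- the constraints encoded by a list -/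
def Holds (ν : I → I) (r : List ℕ) (kk : ℕ → I) : Prop :=
  ∀ u < 18, kk u = sg ν (r.getD u 0) (kk (r.getD u 0 / 2))

instance [DecidableEq I] (ν : I → I) (r : List ℕ) (kk : ℕ → I) : Decidable (Holds ν r kk) := by
  unfold Holds; infer_instance

/-- normal form -/
def Good (r : List ℕ) : Prop :=
  r.length = 18 ∧ ∀ u < 18, r.getD u 0 / 2 < 18 ∧
    r.getD (r.getD u 0 / 2) 0 = 2 * (r.getD u 0 / 2)

/-- adding the constraint `kk u = sg t (kk w)` -/
def merge (r : List ℕ) (u w t : ℕ) : Option (List ℕ) :=
  if r.getD u 0 / 2 = r.getD w 0 / 2 then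
    (if (r.getD u 0 + r.getD w 0 + t) % 2 = 0 then some r else none)
  else some (r.map fun c => if c / 2 = r.getD u 0 / 2 then
    2 * (r.getD w 0 / 2) + (c + (r.getD u 0 + r.getD w 0 + t)) % 2 else c)

lemma getD_map18 (r : List ℕ) (f : ℕ → ℕ) (hr : r.length = 18) (u : ℕ) (hu : u < 18) :
    (r.map f).getD u 0 = f (r.getD u 0) := by
  have h1 : u < r.length := by omega
  have h2 : u < (r.map f).length := by rw [List.length_map]; exact h1
  rw [List.getD_eq_getElem _ _ h2, List.getD_eq_getElem _ _ h1, List.getElem_map]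

lemma merge_some {ν : I → I} (hν : Function.Involutive ν) {r r' : List ℕ} {u w t : ℕ}
    (hr : Good r) (hu : u < 18) (hw : w < 18) (h : merge r u w t = some r') :
    Good r' ∧ ∀ kk : ℕ → I, Holds ν r' kk ↔ (Holds ν r kk ∧ kk u = sg ν t (kk w)) := by
  unfold merge at h
  obtain ⟨hlen, hgood⟩ := hr
  obtain ⟨ha, hra⟩ := hgood u hu
  obtain ⟨hb, hrb⟩ := hgood w hw
  set a := r.getD u 0 / 2 with hadef
  set b := r.getD w 0 / 2 with hbdef
  split_ifs at h with hab hs
  · -- same root, consistent
    have h' := Option.some.inj h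
    subst h'
    refine ⟨⟨hlen, hgood⟩, fun kk => ⟨fun hk => ⟨hk, ?_⟩, fun hk => hk.1⟩⟩
    have h1 := hk u hu
    have h2 := hk w hw
    rw [h1, h2, sg_sg hν]
    rw [← hadef, ← hbdef, hab]
    apply sg_congr
    omega
  · -- different roots
    have h' := Option.some.inj h
    set s := r.getD u 0 + r.getD w 0 + t with hsdef
    set f : ℕ → ℕ := fun c => if c / 2 = a then 2 * b + (c + s) % 2 else c with hf
    have hget : ∀ v < 18, r'.getD v 0 = f (r.getD v 0) := by
      intro v hv
      rw [← h']
      exact getD_map18 r f hlen v hv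
    have hlen' : r'.length = 18 := by rw [← h', List.length_map, hlen]
    have hfa : ∀ c, c / 2 = a → f c / 2 = b ∧ f c % 2 = (c + s) % 2 := by
      intro c hc
      simp only [hf, hc, if_true]
      constructor <;> omega
    have hfn : ∀ c, c / 2 ≠ a → f c = c := by
      intro c hc
      simp only [hf, hc, if_false]
    have hb' : r'.getD b 0 = 2 * b := by
      rw [hget b hb, hrb]
      apply hfn
      omega
    refine ⟨⟨hlen', ?_⟩, ?_⟩
    · intro v hv
      rw [hget v hv]
      by_cases hc : r.getD v 0 / 2 = a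
      · rw [(hfa _ hc).1]
        exact ⟨hb, hb'⟩
      · rw [hfn _ hc]
        obtain ⟨h1, h2⟩ := hgood v hv
        refine ⟨h1, ?_⟩
        rw [hget _ h1, h2]
        apply hfn
        omega
    · intro kk
      have key : ∀ v < 18, r.getD v 0 / 2 = a → kk a = sg ν s (kk b) →
          sg ν (r'.getD v 0) (kk (r'.getD v 0 / 2)) = sg ν (r.getD v 0) (kk (r.getD v 0 / 2)) := by
        intro v hv hc hk
        obtain ⟨e1, e2⟩ := hfa _ hc
        rw [hget v hv, e1, hc, hk, sg_sg hν]
        apply sg_congr
        rw [e2]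
      have key' : ∀ v < 18, r.getD v 0 / 2 ≠ a →
          sg ν (r'.getD v 0) (kk (r'.getD v 0 / 2)) = sg ν (r.getD v 0) (kk (r.getD v 0 / 2)) := by
        intro v hv hc
        rw [hget v hv, hfn _ hc]
      have hiff : Holds ν r kk → (kk u = sg ν t (kk w) ↔ kk a = sg ν s (kk b)) := by
        intro hk
        have h1 := hk u hu
        have h2 := hk w hw
        rw [← hadef] at h1
        rw [← hbdef] at h2
        rw [h1, h2, sg_sg hν]
        constructor
        · intro e
          have := congrArg (sg ν (r.getD u 0)) e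
          rw [sg_sg hν, sg_sg hν, sg_even ν (by omega)] at this
          rw [this]
          apply sg_congr
          omega
        · intro e
          rw [e, sg_sg hν]
          apply sg_congr
          omega
      constructor
      · intro hk
        have hka : kk a = sg ν s (kk b) := by
          have h1 := hk a ha
          obtain ⟨e1, e2⟩ := hfa (2 * a) (by omega)
          rw [hget a ha, hra, e1] at h1
          rw [h1]
          apply sg_congr
          rw [e2]; omega
        have hh : Holds ν r kk := by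
          intro v hv
          rw [hk v hv]
          by_cases hc : r.getD v 0 / 2 = a
          · exact key v hv hc hka
          · exact key' v hv hc
        exact ⟨hh, (hiff hh).2 hka⟩
      · rintro ⟨hk, hc0⟩
        have hka := (hiff hk).1 hc0
        intro v hv
        rw [hk v hv]
        by_cases hc : r.getD v 0 / 2 = a
        · rw [key v hv hc hka]
        · rw [key' v hv hc]

lemma merge_none {ν : I → I} (hν : Function.Involutive ν) (hn : ∀ i, ν i ≠ i) {r : List ℕ}
    {u w t : ℕ} (hu : u < 18) (hw : w < 18) (h : merge r u w t = none)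
    (kk : ℕ → I) : ¬ (Holds ν r kk ∧ kk u = sg ν t (kk w)) := by
  rintro ⟨hk, hc⟩
  unfold merge at h
  split_ifs at h with hab hs
  have h1 := hk u hu
  have h2 := hk w hw
  rw [h1, h2, sg_sg hν, hab] at hc
  have := congrArg (sg ν (r.getD u 0)) hc
  rw [sg_sg hν, sg_sg hν, sg_even ν (by omega)] at this
  have h3 : sg ν (r.getD u 0 + (t + r.getD w 0)) (kk (r.getD w 0 / 2)) =
      ν (kk (r.getD w 0 / 2)) := by
    unfold sg
    rw [if_neg (by omega)]
  rw [h3] at this
  exact hn _ this.symm

end Pool.Agent.H802R3.Vas
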