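import Pool.Agent.H802R3.Vas.Defs

/-!
# The state sum of an involutive set of colours

For a finite set `I` with a fixed point free involution `ν` and a function `x : I → ℤ` which is odd
for `ν` we define the weight system of the orthogonal Lie algebra of signed matrices, and prove
that it respects isomorphisms, AS and IHX.
-/

set_option autoImplicit false

namespace Pool.Agent.H802R3.Vas

open Finset

variable {I : Type} [Fintype I] [DecidableEq I]

/-- the propagator -/
def kap (ν : I → I) (a b : I × I) : ℤ :=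
  (if a.1 = b.2 ∧ a.2 = b.1 then 1 else 0) - (if a.1 = ν b.1 ∧ a.2 = ν b.2 then 1 else 0)

/-- the transposition with sign -/
def tht (ν : I → I) (a : I × I) : I × I := (ν a.2, ν a.1)

omit [Fintype I] in
lemma kap_comm {ν : I → I} (hν : Function.Involutive ν) (a b : I × I) :
    kap ν a b = kap ν b a := by
  unfold kap
  have h1 : (a.1 = b.2 ∧ a.2 = b.1) ↔ (b.1 = a.2 ∧ b.2 = a.1) := by
    constructor <;> rintro ⟨h, h'⟩ <;> exact ⟨h'.symm, h.symm⟩
  have h2 : (a.1 = ν b.1 ∧ a.2 = ν b.2) ↔ (b.1 = ν a.1 ∧ b.2 = ν a.2) := by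
    constructor <;> rintro ⟨h, h'⟩ <;> rw [h, h', hν, hν] <;> exact ⟨rfl, rfl⟩
  simp only [h1, h2]

omit [Fintype I] in
lemma kap_tht {ν : I → I} (hν : Function.Involutive ν) (a b : I × I) :
    kap ν (tht ν a) b = - kap ν a b := by
  unfold kap tht
  have h1 : (ν a.2 = b.2 ∧ ν a.1 = b.1) ↔ (a.1 = ν b.1 ∧ a.2 = ν b.2) := by
    constructor
    · rintro ⟨h, h'⟩; rw [← h, ← h', hν, hν]; exact ⟨rfl, rfl⟩
    · rintro ⟨h, h'⟩; rw [h, h', hν, hν]; exact ⟨rfl, rfl⟩
  have h2 : (ν a.2 = ν b.1 ∧ ν a.1 = ν b.2) ↔ (a.1 = b.2 ∧ a.2 = b.1) := by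
    constructor
    · rintro ⟨h, h'⟩; exact ⟨hν.injective h', hν.injective h⟩
    · rintro ⟨h, h'⟩; rw [h, h']; exact ⟨rfl, rfl⟩
  simp only [h1, h2]
  ring

/-- the weight of an edge -/
def kedge {H : Type} (ν : I → I) (hν : Function.Involutive ν) (l : H → I × I) : Sym2 H → ℤ :=
  Sym2.lift ⟨fun a b => kap ν (l a) (l b), fun _ _ => kap_comm hν _ _⟩

omit [Fintype I] in
@[simp] lemma kedge_mk {H : Type} (ν : I → I) (hν : Function.Involutive ν) (l : H → I × I)
    (a b : H) : kedge ν hν l s(a, b) = kap ν (l a) (l b) := rfl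

omit [Fintype I] in
lemma kedge_map {H H' : Type} (ν : I → I) (hν : Function.Involutive ν) (l : H' → I × I)
    (f : H → H') (e : Sym2 H) : kedge ν hν l (Sym2.map f e) = kedge ν hν (l ∘ f) e := by
  induction e with
  | _ a b => rfl

omit [Fintype I] in
lemma kedge_congr {H : Type} (ν : I → I) (hν : Function.Involutive ν) {l l' : H → I × I}
    (e : Sym2 H) (h : ∀ a ∈ e, l a = l' a) : kedge ν hν l e = kedge ν hν l' e := by
  induction e with
  | _ a b =>
    simp only [kedge_mk]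
    rw [h a (by simp), h b (by simp)]

/-- the edges of a pairing -/
def edgesOf {n u : ℕ} (m : Half n u → Half n u) : Finset (Sym2 (Half n u)) :=
  univ.image fun h => s(h, m h)

lemma mem_edgesOf {n u : ℕ} (m : Half n u → Half n u) (e : Sym2 (Half n u)) :
    e ∈ edgesOf m ↔ ∃ h, s(h, m h) = e := by
  simp [edgesOf]

/-- the edges of a graph -/
def Graph.edges (D : Graph) : Finset (Sym2 (Half D.n D.u)) := edgesOf D.mate

lemma Graph.mem_edges (D : Graph) (e : Sym2 (Half D.n D.u)) :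
    e ∈ D.edges ↔ ∃ h, s(h, D.mate h) = e := mem_edgesOf _ _

lemma Graph.mk_mem_edges (D : Graph) (h : Half D.n D.u) : s(h, D.mate h) ∈ D.edges :=
  (D.mem_edges _).2 ⟨h, rfl⟩

lemma Graph.eq_of_mem (D : Graph) {e : Sym2 (Half D.n D.u)} (he : e ∈ D.edges)
    {h : Half D.n D.u} (hh : h ∈ e) : e = s(h, D.mate h) := by
  obtain ⟨a, rfl⟩ := (D.mem_edges _).1 he
  rw [Sym2.mem_iff] at hh
  rcases hh with rfl | rfl
  · rfl
  · rw [D.mate_mate]; exact Sym2.eq_swap

/-- an isomorphism of the pairings maps edges to edges -/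
lemma edges_of_equiv (D E : Graph) (φ : Half D.n D.u ≃ Half E.n E.u)
    (hφ : ∀ h, E.mate (φ h) = φ (D.mate h)) :
    E.edges = D.edges.map ⟨Sym2.map φ, Sym2.map.injective φ.injective⟩ := by
  ext e
  simp only [Graph.mem_edges, Finset.mem_map, Function.Embedding.coeFn_mk]
  constructor
  · rintro ⟨h, rfl⟩
    refine ⟨s(φ.symm h, D.mate (φ.symm h)), ⟨φ.symm h, rfl⟩, ?_⟩
    rw [Sym2.map_mk]
    have := hφ (φ.symm h)
    rw [Equiv.apply_symm_apply] at this
    simp [this]
  · rintro ⟨e', ⟨h, rfl⟩, rfl⟩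
    refine ⟨φ h, ?_⟩
    rw [Sym2.map_mk, hφ]

omit [Fintype I] in
lemma prod_edges_of_equiv (D E : Graph) (φ : Half D.n D.u ≃ Half E.n E.u)
    (hφ : ∀ h, E.mate (φ h) = φ (D.mate h)) (ν : I → I) (hν : Function.Involutive ν)
    (l : Half E.n E.u → I × I) :
    ∏ e ∈ E.edges, kedge ν hν l e = ∏ e ∈ D.edges, kedge ν hν (l ∘ φ) e := by
  rw [edges_of_equiv D E φ hφ, Finset.prod_map]
  refine Finset.prod_congr rfl fun e _ => ?_
  exact kedge_map ν hν l φ e

omit [Fintype I] in
/-- flipping the label of one half-edge changes the sign -/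
lemma prod_flip (D : Graph) (S : Finset (Sym2 (Half D.n D.u))) (hS : S ⊆ D.edges)
    (ν : I → I) (hν : Function.Involutive ν) (l l' : Half D.n D.u → I × I) (h : Half D.n D.u)
    (hh : s(h, D.mate h) ∈ S) (h1 : l' h = tht ν (l h))
    (h2 : ∀ a, a ≠ h → (∃ e ∈ S, a ∈ e) → l' a = l a) :
    ∏ e ∈ S, kedge ν hν l' e = - ∏ e ∈ S, kedge ν hν l e := by
  rw [← Finset.mul_prod_erase S _ hh, ← Finset.mul_prod_erase S (fun e => kedge ν hν l e) hh,
    ← neg_mul]
  congr 1
  · rw [kedge_mk, kedge_mk, h1, h2 _ (D.mate_ne h) ⟨_, hh, by simp⟩, kap_tht hν]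
  · refine Finset.prod_congr rfl fun e he => ?_
    refine kedge_congr ν hν e fun a ha => h2 a ?_ ⟨e, Finset.mem_of_mem_erase he, ha⟩
    rintro rfl
    exact (Finset.ne_of_mem_erase he) (D.eq_of_mem (hS (Finset.mem_of_mem_erase he)) ha)

/-- the labels of the half-edges given by colours of the corners -/
def lab {n u : ℕ} (k : Half n u → I) : Half n u → I × I
  | Sum.inl (v, i) => (k (Sum.inl (v, i)), k (Sum.inl (v, i + 1)))
  | Sum.inr l => (k (Sum.inr l), k (Sum.inr l))

/-- the state sum -/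
def wt (ν : I → I) (hν : Function.Involutive ν) (x : I → ℤ) (D : Graph) : ℤ :=
  ∑ k : Half D.n D.u → I, (∏ l : Fin D.u, x (k (Sum.inr l))) *
    ∏ e ∈ D.edges, kedge ν hν (lab k) e

/-- the equivalence of half-edges given by a relabelling -/
def relabelEquiv {n u n' u' : ℕ} (π : Fin n ≃ Fin n') (r : Fin n → Fin 3) (ρ : Fin u ≃ Fin u') :
    Half n u ≃ Half n' u' where
  toFun := relabel π r ρ
  invFun
    | Sum.inl (v, i) => Sum.inl (π.symm v, i - r (π.symm v))
    | Sum.inr l => Sum.inr (ρ.symm l)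
  left_inv := by
    rintro (⟨v, i⟩ | l) <;> simp [relabel]
  right_inv := by
    rintro (⟨v, i⟩ | l) <;> simp [relabel]

lemma wt_iso (ν : I → I) (hν : Function.Involutive ν) (x : I → ℤ) {D E : Graph}
    (h : D.Iso E) : wt ν hν x D = wt ν hν x E := by
  obtain ⟨π, r, ρ, h⟩ := h
  unfold wt
  refine (Fintype.sum_equiv ((relabelEquiv π r ρ).arrowCongr (Equiv.refl I)).symm _ _ ?_).symm
  intro k
  have hk : ((relabelEquiv π r ρ).arrowCongr (Equiv.refl I)).symm k = k ∘ relabel π r ρ := by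
    funext a; rfl
  rw [hk]
  congr 1
  · refine (Fintype.prod_equiv ρ _ _ ?_).symm
    intro l
    rfl
  · rw [prod_edges_of_equiv D E (relabelEquiv π r ρ) h ν hν]
    congr 1
    funext e
    congr 1
    funext a
    rcases a with ⟨v, i⟩ | l
    · change lab k (relabel π r ρ (Sum.inl (v, i))) = _
      simp only [relabel, lab, Function.comp]
      rw [add_right_comm]
    · rfl

end Pool.Agent.H802R3.Vas
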